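import Mathlib

/-!
# Representations of small configurations `(n_3)`: basic facts
-/

set_option autoImplicit false
set_option linter.unusedSectionVars false

namespace Pool.Agent.R158.N3

open Finset Module Submodule

variable {P E : Type} [Fintype P] [DecidableEq P] [AddCommGroup E] [Module ℝ E]
  [FiniteDimensional ℝ E]

/-- A configuration on at most 14 points with a representation by vectors, such that no subspace of
dimension four contains all of them. -/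
structure Sys (L : Finset (Finset P)) (u : P → E) : Prop where
  three : ∀ ℓ ∈ L, ℓ.card = 3
  deg : ∀ p, (L.filter (p ∈ ·)).card = 3
  lin : ∀ ℓ ∈ L, ∀ m ∈ L, ∀ p q, p ≠ q → p ∈ ℓ → q ∈ ℓ → p ∈ m → q ∈ m → ℓ = m
  cardP : Fintype.card P ≤ 14
  cardL : L.card ≤ 14
  indep : ∀ p q, p ≠ q → u q ∉ span ℝ {u p}
  col : ∀ ℓ ∈ L, ∀ p ∈ ℓ, ∀ q ∈ ℓ, ∀ r ∈ ℓ, p ≠ q → u r ∈ span ℝ {u p, u q}
  inc : ∀ ℓ ∈ L, ∀ p ∈ ℓ, ∀ q ∈ ℓ, p ≠ q → ∀ s, u s ∈ span ℝ {u p, u q} → s ∈ ℓ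
  big : ∀ F : Submodule ℝ E, finrank ℝ F ≤ 4 → ∃ p, u p ∉ F

open Classical in
/-- the points in a subspace -/
noncomputable def pts (u : P → E) (F : Submodule ℝ E) : Finset P := univ.filter fun p => u p ∈ F

theorem mem_pts {u : P → E} {F : Submodule ℝ E} {p : P} : p ∈ pts u F ↔ u p ∈ F := by
  simp [pts]

/-! ### dimensions -/

theorem finrank_pair {x y : E} : finrank ℝ (span ℝ ({x, y} : Set E)) ≤ 2 := by
  classical
  have h := finrank_span_finset_le_card (R := ℝ) ({x, y} : Finset E)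
  rw [Finset.coe_pair] at h
  exact h.trans card_le_two

theorem finrank_sing {x : E} : finrank ℝ (span ℝ ({x} : Set E)) ≤ 1 := by
  classical
  have h := finrank_span_finset_le_card (R := ℝ) ({x} : Finset E)
  rw [Finset.coe_singleton] at h
  exact h.trans (by simp)

theorem finrank_sup_sing {F : Submodule ℝ E} {x : E} {n : ℕ} (h : finrank ℝ F ≤ n) :
    finrank ℝ (F ⊔ span ℝ ({x} : Set E) : Submodule ℝ E) ≤ n + 1 :=
  (Submodule.finrank_add_le_finrank_add_finrank _ _).trans (Nat.add_le_add h finrank_sing)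

theorem finrank_three {x y z : E} : finrank ℝ (span ℝ ({x, y} : Set E) ⊔ span ℝ {z} :
    Submodule ℝ E) ≤ 3 := finrank_sup_sing finrank_pair

theorem finrank_four {x y z w : E} : finrank ℝ (span ℝ ({x, y} : Set E) ⊔ span ℝ {z} ⊔ span ℝ {w} :
    Submodule ℝ E) ≤ 4 := finrank_sup_sing finrank_three

namespace Sys

variable {L : Finset (Finset P)} {u : P → E} (H : Sys L u)
include H

theorem flat {ℓ : Finset P} (hℓ : ℓ ∈ L) {p q r : P} (hp : p ∈ ℓ) (hq : q ∈ ℓ) (hr : r ∈ ℓ)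
    (hpq : p ≠ q) {F : Submodule ℝ E} (h1 : u p ∈ F) (h2 : u q ∈ F) : u r ∈ F := by
  refine (span_le.2 ?_) (H.col ℓ hℓ p hp q hq r hr hpq)
  rintro x (rfl | rfl) <;> assumption

theorem finrank_two {p q : P} (h : p ≠ q) : finrank ℝ (span ℝ ({u p, u q} : Set E)) = 2 := by
  have h1 : LinearIndependent ℝ ![u p, u q] := by
    rw [LinearIndependent.pair_iff]
    intro s t hst
    have h2 : t = 0 := by
      by_contra ht
      apply H.indep p q h
      rw [mem_span_singleton]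
      refine ⟨-(t⁻¹ * s), ?_⟩
      have : t • u q = -(s • u p) := by
        rw [add_comm] at hst
        exact eq_neg_of_add_eq_zero_left hst
      calc (-(t⁻¹ * s)) • u p = t⁻¹ • (-(s • u p)) := by rw [smul_neg, smul_smul, neg_smul]
        _ = t⁻¹ • (t • u q) := by rw [this]
        _ = u q := by rw [smul_smul, inv_mul_cancel₀ ht, one_smul]
    refine ⟨?_, h2⟩
    rw [h2, zero_smul, add_zero, smul_eq_zero] at hst
    rcases hst with h3 | h3
    · exact h3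
    · exact absurd (by rw [h3]; exact zero_mem _) (H.indep q p h.symm)
  have h2 := finrank_span_eq_card h1
  rw [Matrix.range_cons_cons_empty, Fintype.card_fin] at h2
  exact h2

/-- points in the intersection of a plane and another flat are collinear -/
theorem COL {F V : Submodule ℝ E} (hF : finrank ℝ F ≤ 3) {x : P} (hxF : u x ∈ F) (hxV : u x ∉ V)
    {p q s : P} (hpq : p ≠ q) (hp : u p ∈ F) (hq : u q ∈ F) (hs : u s ∈ F) (hp' : u p ∈ V)
    (hq' : u q ∈ V) (hs' : u s ∈ V) : u s ∈ span ℝ {u p, u q} := by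
  have h1 : F ⊓ V < F := by
    refine lt_of_le_of_ne inf_le_left fun h => hxV ?_
    rw [← h] at hxF
    exact hxF.2
  have h2 := Submodule.finrank_lt_finrank_of_lt h1
  have h3 : span ℝ {u p, u q} ≤ F ⊓ V := by
    rw [span_le]
    rintro y (rfl | rfl)
    · exact ⟨hp, hp'⟩
    · exact ⟨hq, hq'⟩
  have h4 : span ℝ {u p, u q} = F ⊓ V := by
    refine Submodule.eq_of_le_of_finrank_le h3 ?_
    rw [H.finrank_two hpq]
    omega
  rw [h4]
  exact ⟨hs, hs'⟩

/-- the third point of a line -/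
theorem third {ℓ : Finset P} (hℓ : ℓ ∈ L) {p q : P} (hp : p ∈ ℓ) (hq : q ∈ ℓ) (hpq : p ≠ q) :
    ∃ r ∈ ℓ, r ≠ p ∧ r ≠ q ∧ ∀ s ∈ ℓ, s = p ∨ s = q ∨ s = r := by
  have h1 : ((ℓ.erase p).erase q).card = 1 := by
    rw [card_erase_of_mem (mem_erase.2 ⟨hpq.symm, hq⟩), card_erase_of_mem hp, H.three ℓ hℓ]
  obtain ⟨r, hr⟩ := card_eq_one.1 h1
  have h2 : r ∈ (ℓ.erase p).erase q := by rw [hr]; exact mem_singleton_self r
  rw [mem_erase, mem_erase] at h2
  refine ⟨r, h2.2.2, h2.2.1, h2.1, fun s hs => ?_⟩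
  by_cases h3 : s = p
  · exact Or.inl h3
  by_cases h4 : s = q
  · exact Or.inr (Or.inl h4)
  right
  right
  have h5 : s ∈ (ℓ.erase p).erase q := mem_erase.2 ⟨h4, mem_erase.2 ⟨h3, hs⟩⟩
  rw [hr] at h5
  exact mem_singleton.1 h5

/-- If all the lines in a set `S` of lines through `x` have a second point in `T`, then `T` has at
least `|S|` points besides `x`. -/
theorem card_le {x : P} {S : Finset (Finset P)} (hS : ∀ ℓ ∈ S, ℓ ∈ L ∧ x ∈ ℓ) {T : Finset P}
    (hT : ∀ ℓ ∈ S, ∃ y ∈ T, y ≠ x ∧ y ∈ ℓ) : S.card ≤ (T.erase x).card := by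
  classical
  have : Nonempty P := ⟨x⟩
  choose! g hg using hT
  refine card_le_card_of_injOn g (fun ℓ hℓ => ?_) fun ℓ hℓ m hm h => ?_
  · exact mem_coe.2 (mem_erase.2 ⟨(hg ℓ hℓ).2.1, (hg ℓ hℓ).1⟩)
  · have h1 := hg ℓ hℓ
    have h2 := hg m hm
    rw [← h] at h2
    exact H.lin ℓ (hS ℓ hℓ).1 m (hS m hm).1 x (g ℓ) h1.2.1.symm (hS ℓ hℓ).2 h1.2.2 (hS m hm).2
      h2.2.2

/-- the lines through a point -/
theorem three_lines (x : P) : ∃ a b c : Finset P, a ≠ b ∧ a ≠ c ∧ b ≠ c ∧ a ∈ L ∧ b ∈ L ∧ c ∈ L ∧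
    x ∈ a ∧ x ∈ b ∧ x ∈ c ∧ ∀ ℓ ∈ L, x ∈ ℓ → ℓ = a ∨ ℓ = b ∨ ℓ = c := by
  obtain ⟨a, b, c, hab, hac, hbc, h⟩ := card_eq_three.1 (H.deg x)
  have ha : a ∈ L.filter (x ∈ ·) := by rw [h]; simp
  have hb : b ∈ L.filter (x ∈ ·) := by rw [h]; simp
  have hc : c ∈ L.filter (x ∈ ·) := by rw [h]; simp
  rw [mem_filter] at ha hb hc
  refine ⟨a, b, c, hab, hac, hbc, ha.1, hb.1, hc.1, ha.2, hb.2, hc.2, fun ℓ hℓ hx => ?_⟩
  have : ℓ ∈ L.filter (x ∈ ·) := mem_filter.2 ⟨hℓ, hx⟩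
  rw [h] at this
  simpa using this

/-- adding a point to a flat: each line through the point that meets the flat gives a further
point -/
theorem add_point {F : Submodule ℝ E} {x : P} (hx : u x ∉ F) {S : Finset (Finset P)}
    (hS : ∀ ℓ ∈ S, ℓ ∈ L ∧ x ∈ ℓ ∧ ∃ y ∈ ℓ, u y ∈ F) :
    (pts u F).card + 1 + S.card ≤ (pts u (F ⊔ span ℝ {u x})).card := by
  classical
  set G := F ⊔ span ℝ {u x} with hG
  have hFG : F ≤ G := le_sup_left
  have hxG : u x ∈ G := (le_sup_right : span ℝ {u x} ≤ G) (mem_span_singleton_self _)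
  have h1 : S.card ≤ ((pts u G \ pts u F).erase x).card := by
    refine H.card_le (fun ℓ hℓ => ⟨(hS ℓ hℓ).1, (hS ℓ hℓ).2.1⟩) fun ℓ hℓ => ?_
    obtain ⟨h2, h3, y, hy, hyF⟩ := hS ℓ hℓ
    have hxy : x ≠ y := fun h => hx (h ▸ hyF)
    obtain ⟨r, hr, hrx, hry, -⟩ := H.third h2 h3 hy hxy
    refine ⟨r, ?_, hrx, hr⟩
    rw [mem_sdiff, mem_pts, mem_pts]
    refine ⟨H.flat h2 h3 hy hr hxy hxG (hFG hyF), fun h => hx ?_⟩
    exact H.flat h2 hr hy h3 hry h hyF
  have h2 : x ∈ pts u G \ pts u F := by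
    rw [mem_sdiff, mem_pts, mem_pts]
    exact ⟨hxG, hx⟩
  rw [card_erase_of_mem h2] at h1
  have h3 : pts u F ⊆ pts u G := fun p hp => mem_pts.2 (hFG (mem_pts.1 hp))
  have h4 := card_sdiff_add_card_eq_card h3
  have h5 : 0 < (pts u G \ pts u F).card := card_pos.2 ⟨x, h2⟩
  omega

/-- a line through a point outside of a flat has another point outside -/
theorem other {V : Submodule ℝ E} {x : P} (hx : u x ∉ V) {ℓ : Finset P} (h2 : ℓ ∈ L)
    (h3 : x ∈ ℓ) : ∃ y ∈ univ \ pts u V, y ≠ x ∧ y ∈ ℓ := by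
  have h4 : ∃ y ∈ ℓ, y ≠ x := by
    by_contra hc
    push Not at hc
    have : ℓ ⊆ {x} := fun y hy => mem_singleton.2 (hc y hy)
    have := card_le_card this
    rw [H.three ℓ h2, card_singleton] at this
    omega
  obtain ⟨y, hy, hyx⟩ := h4
  obtain ⟨r, hr, hrx, hry, -⟩ := H.third h2 h3 hy hyx.symm
  by_cases h5 : u y ∈ V
  · refine ⟨r, ?_, hrx, hr⟩
    rw [mem_sdiff, mem_pts]
    exact ⟨mem_univ _, fun h => hx (H.flat h2 hr hy h3 hry h h5)⟩
  · refine ⟨y, ?_, hyx, hy⟩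
    rw [mem_sdiff, mem_pts]
    exact ⟨mem_univ _, h5⟩

/-- a flat of dimension at most four misses at least four points -/
theorem compl_four {V : Submodule ℝ E} {x : P} (hx : u x ∉ V) :
    4 ≤ (univ \ pts u V).card := by
  classical
  have h1 : (L.filter (x ∈ ·)).card ≤ ((univ \ pts u V).erase x).card :=
    H.card_le (fun ℓ hℓ => mem_filter.1 hℓ) fun ℓ hℓ =>
      H.other hx (mem_filter.1 hℓ).1 (mem_filter.1 hℓ).2
  rw [H.deg] at h1
  have h2 : x ∈ univ \ pts u V := by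
    rw [mem_sdiff, mem_pts]
    exact ⟨mem_univ _, hx⟩
  rw [card_erase_of_mem h2] at h1
  omega

theorem pts_le {V : Submodule ℝ E} (hV : finrank ℝ V ≤ 4) :
    (pts u V).card + 4 ≤ Fintype.card P := by
  classical
  obtain ⟨x, hx⟩ := H.big V hV
  have h1 := H.compl_four hx
  rw [card_univ_sdiff] at h1
  have h2 := card_le_univ (pts u V)
  omega

end Sys

end Pool.Agent.R158.N3
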