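import Mathlib
import Pool.Agent.R158.N3.Core

/-!
# Four points with all pairs on lines
-/

set_option autoImplicit false
set_option linter.unusedSectionVars false

namespace Pool.Agent.R158.N3

open Finset Module Submodule

variable {P E : Type} [Fintype P] [DecidableEq P] [AddCommGroup E] [Module ℝ E]
  [FiniteDimensional ℝ E]

/-- The diagonal points of a complete quadrangle are not collinear. -/
theorem fano {A B C D X Y Z : E}
    (hi : ∀ x y z : ℝ, x • A + y • B + z • C = 0 → x = 0 ∧ y = 0 ∧ z = 0)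
    (h1 : X ∈ span ℝ {A, B}) (h2 : X ∈ span ℝ {C, D}) (h3 : Y ∈ span ℝ {A, C})
    (h4 : Y ∈ span ℝ {B, D}) (h5 : Z ∈ span ℝ {B, C}) (h6 : Z ∈ span ℝ {A, D})
    (h7 : Z ∈ span ℝ {X, Y}) (h8 : X ∉ span ℝ {A}) (h9 : X ∉ span ℝ {B})
    (h10 : X ∉ span ℝ {D}) (h11 : Z ≠ 0) : False := by
  obtain ⟨x1, x2, hx⟩ := mem_span_pair.1 h1
  obtain ⟨x3, x4, hx'⟩ := mem_span_pair.1 h2
  obtain ⟨y1, y2, hy⟩ := mem_span_pair.1 h3
  obtain ⟨y3, y4, hy'⟩ := mem_span_pair.1 h4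
  obtain ⟨z1, z2, hz⟩ := mem_span_pair.1 h5
  obtain ⟨z3, z4, hz'⟩ := mem_span_pair.1 h6
  obtain ⟨l, m, hl⟩ := mem_span_pair.1 h7
  have n1 : x1 ≠ 0 := by
    rintro rfl
    exact h9 (mem_span_singleton.2 ⟨x2, by rw [← hx]; module⟩)
  have n2 : x2 ≠ 0 := by
    rintro rfl
    exact h8 (mem_span_singleton.2 ⟨x1, by rw [← hx]; module⟩)
  have n3 : x3 ≠ 0 := by
    rintro rfl
    exact h10 (mem_span_singleton.2 ⟨x4, by rw [← hx']; module⟩)
  have e1 : (x4 * y1 - y4 * x1) • A + (-(x4 * y3) - y4 * x2) • B + (x4 * y2 + y4 * x3) • C = 0 := by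
    have h : x4 • (y1 • A + y2 • C) - x4 • (y3 • B + y4 • D) =
      y4 • (x1 • A + x2 • B) - y4 • (x3 • C + x4 • D) := by
      rw [hx, hx', hy, hy']
      simp
    linear_combination (norm := module) h
  have e2 : (-(x4 * z3) - z4 * x1) • A + (x4 * z1 - z4 * x2) • B + (x4 * z2 + z4 * x3) • C = 0 := by
    have h : x4 • (z1 • B + z2 • C) - x4 • (z3 • A + z4 • D) =
      z4 • (x1 • A + x2 • B) - z4 • (x3 • C + x4 • D) := by
      rw [hx, hx', hz, hz']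
      simp
    linear_combination (norm := module) h
  have e3 : (-(l * x1) - m * y1) • A + (z1 - l * x2) • B + (z2 - m * y2) • C = 0 := by
    have h : l • (x1 • A + x2 • B) + m • (y1 • A + y2 • C) = z1 • B + z2 • C := by
      rw [hx, hy, hz, hl]
    linear_combination (norm := module) -h
  obtain ⟨a1, -, a3⟩ := hi _ _ _ e1
  obtain ⟨-, b2, b3⟩ := hi _ _ _ e2
  obtain ⟨c1, c2, c3⟩ := hi _ _ _ e3
  have k1 : z4 = x4 * l := by
    have : x2 * (z4 - x4 * l) = 0 := by linear_combination x4 * c2 - b2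
    have := (mul_eq_zero.1 this).resolve_left n2
    linarith
  have k2 : z4 = m * y4 := by
    have : x3 * (z4 - m * y4) = 0 := by linear_combination b3 - x4 * c3 - m * a3
    have := (mul_eq_zero.1 this).resolve_left n3
    linarith
  have k3 : z4 = 0 := by
    have : x1 * (2 * z4) = 0 := by
      linear_combination (-x4) * c1 - m * a1 + x1 * k1 + x1 * k2
    have := (mul_eq_zero.1 this).resolve_left n1
    linarith
  have k4 : x4 ≠ 0 := by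
    rintro rfl
    have : x1 • A + x2 • B + (-x3) • C = 0 := by
      linear_combination (norm := module) hx - hx'
    exact n1 (hi _ _ _ this).1
  apply h11
  rw [k3] at b2 b3
  have k5 : z1 = 0 := by
    have : x4 * z1 = 0 := by linear_combination b2
    exact (mul_eq_zero.1 this).resolve_left k4
  have k6 : z2 = 0 := by
    have : x4 * z2 = 0 := by linear_combination b3
    exact (mul_eq_zero.1 this).resolve_left k4
  rw [← hz, k5, k6, zero_smul, zero_smul, add_zero]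

namespace Sys

variable {L : Finset (Finset P)} {u : P → E} (H : Sys L u)
include H

theorem independent {a b c : P} {ℓ : Finset P} (hℓ : ℓ ∈ L) (ha : a ∈ ℓ) (hb : b ∈ ℓ)
    (hab : a ≠ b) (hc : c ∉ ℓ) (x y z : ℝ) (h : x • u a + y • u b + z • u c = 0) :
    x = 0 ∧ y = 0 ∧ z = 0 := by
  have hz : z = 0 := by
    by_contra hz
    apply hc
    refine H.inc ℓ hℓ a ha b hb hab c ?_
    rw [mem_span_pair]
    refine ⟨-(z⁻¹ * x), -(z⁻¹ * y), ?_⟩
    have h1 : z⁻¹ • (x • u a + y • u b + z • u c) = 0 := by rw [h, smul_zero]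
    have h2 : z⁻¹ * z = 1 := inv_mul_cancel₀ hz
    have h3 : z⁻¹ • (x • u a + y • u b + z • u c) =
      (z⁻¹ * x) • u a + (z⁻¹ * y) • u b + (z⁻¹ * z) • u c := by module
    rw [h2, h1] at h3
    linear_combination (norm := module) h3
  rw [hz, zero_smul, add_zero] at h
  have hy : y = 0 := by
    by_contra hy
    apply H.indep a b hab
    rw [mem_span_singleton]
    refine ⟨-(y⁻¹ * x), ?_⟩
    have h1 : y⁻¹ • (x • u a + y • u b) = 0 := by rw [h, smul_zero]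
    have h2 : y⁻¹ * y = 1 := inv_mul_cancel₀ hy
    have h3 : y⁻¹ • (x • u a + y • u b) = (y⁻¹ * x) • u a + (y⁻¹ * y) • u b := by module
    rw [h2, h1] at h3
    linear_combination (norm := module) h3
  rw [hy, zero_smul, add_zero, smul_eq_zero] at h
  refine ⟨h.resolve_right fun h3 => ?_, hy, hz⟩
  exact H.indep b a hab.symm (by rw [h3]; exact zero_mem _)

/-- the lines through a point of a set of four points -/
theorem K4 {O : Finset P} (hO : O.card = 4)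
    (h : ∀ o ∈ O, ∀ ℓ ∈ L, o ∈ ℓ → ∃ y ∈ O, y ≠ o ∧ y ∈ ℓ) {o : P} (ho : o ∈ O) {ℓ : Finset P}
    (hℓ : ℓ ∈ L) (hoℓ : o ∈ ℓ) : ∃ y f, y ∈ O ∧ f ∉ O ∧ y ≠ o ∧ f ≠ o ∧ f ≠ y ∧ y ∈ ℓ ∧ f ∈ ℓ ∧
      ∀ s ∈ ℓ, s = o ∨ s = y ∨ s = f := by
  obtain ⟨y, hy, hyo, hyℓ⟩ := h o ho ℓ hℓ hoℓ
  obtain ⟨f, hf, hfo, hfy, h3⟩ := H.third hℓ hoℓ hyℓ hyo.symm
  refine ⟨y, f, hy, fun hfO => ?_, hyo, hfo, hfy, hyℓ, hf, h3⟩
  have h1 : (L.filter (o ∈ ·)).card ≤ ((O.erase f).erase o).card := by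
    refine H.card_le (fun m hm => mem_filter.1 hm) fun m hm => ?_
    obtain ⟨h4, h5⟩ := mem_filter.1 hm
    by_cases hmℓ : m = ℓ
    · rw [hmℓ]
      exact ⟨y, mem_erase.2 ⟨hfy.symm, hy⟩, hyo, hyℓ⟩
    · obtain ⟨z, hz, hzo, hzm⟩ := h o ho m h4 h5
      refine ⟨z, mem_erase.2 ⟨?_, hz⟩, hzo, hzm⟩
      rintro rfl
      exact hmℓ (H.lin m h4 ℓ hℓ o z hzo.symm h5 hzm hoℓ hf)
  rw [H.deg, card_erase_of_mem (mem_erase.2 ⟨hfo.symm, ho⟩), card_erase_of_mem hfO, hO] at h1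
  omega

/-- two of the four points are on a line -/
theorem K4pair {O : Finset P} (hO : O.card = 4)
    (h : ∀ o ∈ O, ∀ ℓ ∈ L, o ∈ ℓ → ∃ y ∈ O, y ≠ o ∧ y ∈ ℓ) {a b : P} (ha : a ∈ O) (hb : b ∈ O)
    (hab : a ≠ b) : ∃ ℓ ∈ L, ∃ f, a ∈ ℓ ∧ b ∈ ℓ ∧ f ∈ ℓ ∧ f ∉ O ∧ ∀ s ∈ ℓ, s = a ∨ s = b ∨ s = f := by
  by_contra hc
  have h1 : (L.filter (a ∈ ·)).card ≤ ((O.erase b).erase a).card := by
    refine H.card_le (fun m hm => mem_filter.1 hm) fun m hm => ?_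
    obtain ⟨h4, h5⟩ := mem_filter.1 hm
    obtain ⟨y, f, hy, hf, hya, -, -, hym, hfm, h6⟩ := H.K4 hO h ha h4 h5
    refine ⟨y, mem_erase.2 ⟨?_, hy⟩, hya, hym⟩
    rintro rfl
    exact hc ⟨m, h4, f, h5, hym, hfm, hf, h6⟩
  rw [H.deg, card_erase_of_mem (mem_erase.2 ⟨hab, ha⟩), card_erase_of_mem hb, hO] at h1
  omega

/-- Four points such that the third points on the lines through two of them are in a collinear set
of at most three points: impossible. -/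
theorem quad {O Y : Finset P} (hO : O.card = 4)
    (h : ∀ o ∈ O, ∀ ℓ ∈ L, o ∈ ℓ → ∃ y ∈ O, y ≠ o ∧ y ∈ ℓ) (hY : Y.card ≤ 3)
    (hOY : ∀ o ∈ O, ∀ ℓ ∈ L, o ∈ ℓ → ∀ f ∈ ℓ, f ∉ O → f ∈ Y)
    (hcol : ∀ p ∈ Y, ∀ q ∈ Y, ∀ s ∈ Y, p ≠ q → u s ∈ span ℝ {u p, u q}) : False := by
  obtain ⟨a, b, c, d, hab, hac, had, hbc, hbd, hcd, hOe⟩ : ∃ a b c d, a ≠ b ∧ a ≠ c ∧ a ≠ d ∧
      b ≠ c ∧ b ≠ d ∧ c ≠ d ∧ O = {a, b, c, d} := by
    obtain ⟨a, ha⟩ : O.Nonempty := card_pos.1 (by omega)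
    have h1 : (O.erase a).card = 3 := by rw [card_erase_of_mem ha, hO]
    obtain ⟨b, c, d, hbc, hbd, hcd, h2⟩ := card_eq_three.1 h1
    have h3 : a ∉ ({b, c, d} : Finset P) := by rw [← h2]; exact notMem_erase a O
    simp only [mem_insert, mem_singleton, not_or] at h3
    refine ⟨a, b, c, d, h3.1, h3.2.1, h3.2.2, hbc, hbd, hcd, ?_⟩
    rw [← insert_erase ha, h2]
  have ha : a ∈ O := by rw [hOe]; simp
  have hb : b ∈ O := by rw [hOe]; simp
  have hc : c ∈ O := by rw [hOe]; simp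
  have hd : d ∈ O := by rw [hOe]; simp
  obtain ⟨ℓab, hℓab, fab, ab1, ab2, ab3, ab4, ab5⟩ := H.K4pair hO h ha hb hab
  obtain ⟨ℓac, hℓac, fac, ac1, ac2, ac3, ac4, ac5⟩ := H.K4pair hO h ha hc hac
  obtain ⟨ℓad, hℓad, fad, ad1, ad2, ad3, ad4, ad5⟩ := H.K4pair hO h ha hd had
  obtain ⟨ℓbc, hℓbc, fbc, bc1, bc2, bc3, bc4, bc5⟩ := H.K4pair hO h hb hc hbc
  obtain ⟨ℓbd, hℓbd, fbd, bd1, bd2, bd3, bd4, bd5⟩ := H.K4pair hO h hb hd hbd
  obtain ⟨ℓcd, hℓcd, fcd, cd1, cd2, cd3, cd4, cd5⟩ := H.K4pair hO h hc hd hcd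
  have ne : ∀ {p f : P}, p ∈ O → f ∉ O → p ≠ f := fun hp hf h => hf (h ▸ hp)
  -- two of the lines through a common point have different third points
  have key : ∀ {p q r f g : P} {ℓ m : Finset P}, ℓ ∈ L → m ∈ L → p ∈ O → r ∈ O → p ≠ r →
      p ∈ ℓ → f ∈ ℓ → (∀ s ∈ ℓ, s = p ∨ s = q ∨ s = f) → q ≠ r → f ∉ O →
      p ∈ m → r ∈ m → g ∈ m → f ≠ g := by
    intro p q r f g ℓ m hℓ hm hp hr hpr h1 h2 h3 h4 h5 h6 h7 h8 h9
    subst h9
    have := H.lin ℓ hℓ m hm p f (ne hp h5) h1 h2 h6 h8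
    rw [← this] at h7
    rcases h3 r h7 with h | h | h
    · exact hpr h.symm
    · exact h4 h.symm
    · exact h5 (h ▸ hr)
  have n1 : fab ≠ fac := key hℓab hℓac ha hc hac ab1 ab3 ab5 hbc ab4 ac1 ac2 ac3
  have n2 : fab ≠ fad := key hℓab hℓad ha hd had ab1 ab3 ab5 hbd ab4 ad1 ad2 ad3
  have n3 : fac ≠ fad := key hℓac hℓad ha hd had ac1 ac3 ac5 hcd ac4 ad1 ad2 ad3
  have Yab := hOY a ha ℓab hℓab ab1 fab ab3 ab4
  have Yac := hOY a ha ℓac hℓac ac1 fac ac3 ac4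
  have Yad := hOY a ha ℓad hℓad ad1 fad ad3 ad4
  have Ybc := hOY b hb ℓbc hℓbc bc1 fbc bc3 bc4
  have Ybd := hOY b hb ℓbd hℓbd bd1 fbd bd3 bd4
  have Ycd := hOY c hc ℓcd hℓcd cd1 fcd cd3 cd4
  have hYe : Y = {fab, fac, fad} := by
    symm
    refine eq_of_subset_of_card_le ?_ ?_
    · intro x hx
      simp only [mem_insert, mem_singleton] at hx
      rcases hx with rfl | rfl | rfl <;> assumption
    · rw [card_eq_three.2 ⟨fab, fac, fad, n1, n2, n3, rfl⟩]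
      exact hY
  rw [hYe] at Ybc Ybd Ycd
  simp only [mem_insert, mem_singleton] at Ybc Ybd Ycd
  have swap : ∀ {p q f : P} {ℓ : Finset P}, (∀ s ∈ ℓ, s = p ∨ s = q ∨ s = f) →
      ∀ s ∈ ℓ, s = q ∨ s = p ∨ s = f := by
    intro p q f ℓ h s hs
    rcases h s hs with h | h | h <;> simp [h]
  have m1 : fac ≠ fcd := key hℓac hℓcd hc hd hcd ac2 ac3 (swap ac5) had ac4 cd1 cd2 cd3
  have m2 : fad ≠ fcd := key hℓad hℓcd hd hc hcd.symm ad2 ad3 (swap ad5) hac ad4 cd2 cd1 cd3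
  have m3 : fab ≠ fbd := key hℓab hℓbd hb hd hbd ab2 ab3 (swap ab5) had ab4 bd1 bd2 bd3
  have m4 : fad ≠ fbd := key hℓad hℓbd hd hb hbd.symm ad2 ad3 (swap ad5) hab ad4 bd2 bd1 bd3
  have m5 : fab ≠ fbc := key hℓab hℓbc hb hc hbc ab2 ab3 (swap ab5) hac ab4 bc1 bc2 bc3
  have m6 : fac ≠ fbc := key hℓac hℓbc hc hb hbc.symm ac2 ac3 (swap ac5) hab ac4 bc2 bc1 bc3
  have e1 : fcd = fab := by
    rcases Ycd with h | h | h
    · exact h
    · exact absurd h.symm m1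
    · exact absurd h.symm m2
  have e2 : fbd = fac := by
    rcases Ybd with h | h | h
    · exact absurd h.symm m3
    · exact h
    · exact absurd h.symm m4
  have e3 : fbc = fad := by
    rcases Ybc with h | h | h
    · exact absurd h.symm m5
    · exact absurd h.symm m6
    · exact h
  subst e1 e2 e3
  have hcl : c ∉ ℓab := by
    intro h
    rcases ab5 c h with h | h | h
    · exact hac h.symm
    · exact hbc h.symm
    · exact ab4 (h ▸ hc)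
  refine fano (A := u a) (B := u b) (C := u c) (D := u d) (X := u fcd) (Y := u fbd) (Z := u fbc)
    (H.independent hℓab ab1 ab2 hab hcl) (H.col ℓab hℓab a ab1 b ab2 _ ab3 hab)
    (H.col ℓcd hℓcd c cd1 d cd2 _ cd3 hcd) (H.col ℓac hℓac a ac1 c ac2 _ ac3 hac)
    (H.col ℓbd hℓbd b bd1 d bd2 _ bd3 hbd) (H.col ℓbc hℓbc b bc1 c bc2 _ bc3 hbc)
    (H.col ℓad hℓad a ad1 d ad2 _ ad3 had) (hcol _ Yab _ Yac _ Yad n1)
    (H.indep _ _ (ne ha ab4)) (H.indep _ _ (ne hb ab4)) (H.indep _ _ (ne hd ab4)) ?_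
  intro h0
  exact H.indep a fbc (ne ha ad4) (by rw [h0]; exact zero_mem _)

end Sys

end Pool.Agent.R158.N3
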