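import Mathlib
import Pool.Agent.R158.N3.Quad

/-!
# Flats which miss exactly four points
-/

set_option autoImplicit false
set_option linter.unusedSectionVars false

namespace Pool.Agent.R158.N3

open Finset Module Submodule

variable {P E : Type} [Fintype P] [DecidableEq P] [AddCommGroup E] [Module ℝ E]
  [FiniteDimensional ℝ E]

namespace Sys

variable {L : Finset (Finset P)} {u : P → E} (H : Sys L u)
include H

theorem mem_compl {V : Submodule ℝ E} {p : P} : p ∈ univ \ pts u V ↔ u p ∉ V := by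
  rw [mem_sdiff, mem_pts]
  simp

theorem Ohyp (V : Submodule ℝ E) : ∀ o ∈ univ \ pts u V, ∀ ℓ ∈ L, o ∈ ℓ →
    ∃ y ∈ univ \ pts u V, y ≠ o ∧ y ∈ ℓ := fun _ ho _ hℓ hoℓ =>
  H.other ((H.mem_compl).1 ho) hℓ hoℓ

/-- a line through a point outside of `V` -/
theorem line4 {V : Submodule ℝ E} (hV : (univ \ pts u V).card = 4) {o : P} (ho : u o ∉ V)
    {ℓ : Finset P} (hℓ : ℓ ∈ L) (hoℓ : o ∈ ℓ) : ∃ y f, u y ∉ V ∧ u f ∈ V ∧ y ≠ o ∧ f ≠ o ∧ f ≠ y ∧
      y ∈ ℓ ∧ f ∈ ℓ ∧ ∀ s ∈ ℓ, s = o ∨ s = y ∨ s = f := by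
  obtain ⟨y, f, h1, h2, h3⟩ := H.K4 hV (H.Ohyp V) (H.mem_compl.2 ho) hℓ hoℓ
  refine ⟨y, f, H.mem_compl.1 h1, ?_, h3⟩
  by_contra h
  exact h2 (H.mem_compl.2 h)

theorem pair4 {V : Submodule ℝ E} (hV : (univ \ pts u V).card = 4) {a b : P} (ha : u a ∉ V)
    (hb : u b ∉ V) (hab : a ≠ b) : ∃ ℓ ∈ L, ∃ f, a ∈ ℓ ∧ b ∈ ℓ ∧ f ∈ ℓ ∧ u f ∈ V ∧
      ∀ s ∈ ℓ, s = a ∨ s = b ∨ s = f := by
  obtain ⟨ℓ, hℓ, f, h1, h2, h3, h4, h5⟩ := H.K4pair hV (H.Ohyp V) (H.mem_compl.2 ha)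
    (H.mem_compl.2 hb) hab
  refine ⟨ℓ, hℓ, f, h1, h2, h3, ?_, h5⟩
  by_contra h
  exact h4 (H.mem_compl.2 h)

theorem cover {V : Submodule ℝ E} (hV : (univ \ pts u V).card = 4) {f : P} (hf : u f ∈ V)
    {e e' : Finset P} (he : e ∈ L) (he' : e' ∈ L) (hfe : f ∈ e) (hfe' : f ∈ e') (hne : e ≠ e')
    {o o' : P} (ho : o ∈ e) (hoV : u o ∉ V) (ho' : o' ∈ e') (hoV' : u o' ∉ V) {x : P}
    (hx : u x ∉ V) : x ∈ e ∨ x ∈ e' := by
  have ne : ∀ {p : P}, u p ∉ V → f ≠ p := fun hp h => hp (h ▸ hf)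
  obtain ⟨y, g, hy, hg, hyo, -, -, hye, hge, h1⟩ := H.line4 hV hoV he ho
  obtain ⟨y', g', hy', hg', hyo', -, -, hye', hge', h1'⟩ := H.line4 hV hoV' he' ho'
  have dis : ∀ {p : P}, u p ∉ V → p ∈ e → p ∈ e' → False := fun hp h2 h3 =>
    hne (H.lin e he e' he' f _ (ne hp) hfe h2 hfe' h3)
  have h2 : ({o, y, o', y'} : Finset P) = univ \ pts u V := by
    refine eq_of_subset_of_card_le ?_ ?_
    · intro p hp
      simp only [mem_insert, mem_singleton] at hp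
      rw [H.mem_compl]
      rcases hp with rfl | rfl | rfl | rfl <;> assumption
    · rw [hV, card_insert_of_notMem, card_insert_of_notMem, card_insert_of_notMem,
        card_singleton]
      · rw [mem_singleton]
        exact hyo'.symm
      · simp only [mem_insert, mem_singleton, not_or]
        exact ⟨fun h => dis hy hye (h ▸ ho'), fun h => dis hy hye (h ▸ hye')⟩
      · simp only [mem_insert, mem_singleton, not_or]
        exact ⟨hyo.symm, fun h => dis hoV ho (h ▸ ho'), fun h => dis hoV ho (h ▸ hye')⟩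
  have h3 := H.mem_compl.2 hx
  rw [← h2] at h3
  simp only [mem_insert, mem_singleton] at h3
  rcases h3 with rfl | rfl | rfl | rfl
  · exact Or.inl ho
  · exact Or.inl hye
  · exact Or.inr ho'
  · exact Or.inr hye'

/-- each point outside of `F` is on at most one line that meets `F` -/
theorem two_of_card {F : Submodule ℝ E} (hF : finrank ℝ F ≤ 3) {β : ℕ}
    (hβ : ∀ G : Submodule ℝ E, finrank ℝ G ≤ 4 → (pts u G).card + β ≤ Fintype.card P)
    (hc : Fintype.card P < (pts u F).card + 3 + β) {x : P} (hx : u x ∉ F) {e e' : Finset P}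
    (he : e ∈ L) (he' : e' ∈ L) (hxe : x ∈ e) (hxe' : x ∈ e') (h : ∃ y ∈ e, u y ∈ F)
    (h' : ∃ y ∈ e', u y ∈ F) : e = e' := by
  by_contra hne
  have h1 := H.add_point hx (S := {e, e'}) (by
    intro ℓ hℓ
    simp only [mem_insert, mem_singleton] at hℓ
    rcases hℓ with rfl | rfl
    · exact ⟨he, hxe, h⟩
    · exact ⟨he', hxe', h'⟩)
  rw [card_pair hne] at h1
  have h2 := hβ _ (finrank_sup_sing (x := u x) hF)
  omega

theorem ext {F : Submodule ℝ E} (two : ∀ x, u x ∉ F → ∀ e ∈ L, ∀ e' ∈ L, x ∈ e → x ∈ e' →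
    (∃ y ∈ e, u y ∈ F) → (∃ y ∈ e', u y ∈ F) → e = e') {A : Finset P}
    (hA : ∀ f ∈ A, u f ∈ F ∧ ∃ e ∈ L, f ∈ e ∧ ∀ y ∈ e, u y ∈ F → y = f) :
    (pts u F).card + 2 * A.card ≤ Fintype.card P := by
  have hA1 : ∀ f ∈ A, u f ∈ F := fun f hf => (hA f hf).1
  have hA2 : ∀ f ∈ A, ∃ e ∈ L, f ∈ e ∧ ∀ y ∈ e, u y ∈ F → y = f := fun f hf => (hA f hf).2
  choose! e he using hA2
  have h1 : (A.biUnion fun f => (e f).erase f).card = 2 * A.card := by
    rw [card_biUnion, sum_congr rfl fun f hf => ?_, sum_const, smul_eq_mul, mul_comm]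
    · rw [card_erase_of_mem (he f hf).2.1, H.three _ (he f hf).1]
    · intro f hf g hg hfg
      show Disjoint ((e f).erase f) ((e g).erase g)
      rw [disjoint_left]
      intro x hx1 hx2
      rw [mem_erase] at hx1 hx2
      have h2 : u x ∉ F := fun h => hx1.1 ((he f hf).2.2 x hx1.2 h)
      have h3 := two x h2 _ (he f hf).1 _ (he g hg).1 hx1.2 hx2.2 ⟨f, (he f hf).2.1, hA1 f hf⟩
        ⟨g, (he g hg).2.1, hA1 g hg⟩
      have h4 := (he f hf).2.1
      rw [h3] at h4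
      exact hfg ((he g hg).2.2 f h4 (hA1 f hf))
  have h2 : Disjoint (pts u F) (A.biUnion fun f => (e f).erase f) := by
    rw [disjoint_left]
    intro x hx1 hx2
    rw [mem_biUnion] at hx2
    obtain ⟨f, hf, hx2⟩ := hx2
    rw [mem_erase] at hx2
    exact hx2.1 ((he f hf).2.2 x hx2.2 (mem_pts.1 hx1))
  have h3 := card_union_of_disjoint h2
  have h4 := card_le_univ (pts u F ∪ A.biUnion fun f => (e f).erase f)
  rw [h3, h1] at h4
  exact h4

/-- The complement of a flat which misses exactly four points is not coplanar. -/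
theorem planar {V Q : Submodule ℝ E} (hV : (univ \ pts u V).card = 4) (hQ : finrank ℝ Q ≤ 3)
    (hO : ∀ p, u p ∉ V → u p ∈ Q) : False := by
  obtain ⟨a, ha⟩ : (univ \ pts u V).Nonempty := card_pos.1 (by omega)
  rw [H.mem_compl] at ha
  set A := pts u Q ∩ pts u V with hAdef
  have hA : ∀ {p : P}, p ∈ A ↔ u p ∈ Q ∧ u p ∈ V := by
    intro p
    rw [hAdef, mem_inter, mem_pts, mem_pts]
  have hcol : ∀ p ∈ A, ∀ q ∈ A, ∀ s ∈ A, p ≠ q → u s ∈ span ℝ {u p, u q} :=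
    fun p hp q hq s hs hpq => H.COL hQ (hO a ha) ha hpq (hA.1 hp).1 (hA.1 hq).1 (hA.1 hs).1
      (hA.1 hp).2 (hA.1 hq).2 (hA.1 hs).2
  have hcard : (pts u Q).card = A.card + 4 := by
    rw [← card_inter_add_card_sdiff (pts u Q) (pts u V), ← hAdef, ← hV]
    congr 2
    ext p
    rw [mem_sdiff, mem_pts, mem_pts, H.mem_compl]
    exact ⟨fun h => h.2, fun h => ⟨hO p h, h⟩⟩
  by_cases hA3 : A.card ≤ 3
  · refine H.quad hV (H.Ohyp V) hA3 ?_ hcol
    intro o ho ℓ hℓ hoℓ f hf hfO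
    rw [H.mem_compl] at ho hfO
    obtain ⟨y, g, hy, hg, hyo, hgo, hgy, hyℓ, hgℓ, h1⟩ := H.line4 hV ho hℓ hoℓ
    refine hA.2 ⟨H.flat hℓ hoℓ hyℓ hf hyo.symm (hO o ho) (hO y hy), ?_⟩
    by_contra h
    exact hfO h
  · have two := fun x (hx : u x ∉ Q) e he e' he' => H.two_of_card (x := x) (e := e) (e' := e') hQ
      (β := 4) (fun G hG => H.pts_le hG) (by have := H.cardP; omega) hx he he'
    have h1 := H.ext (A := A) two fun f hf => ?_
    · have := H.cardP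
      omega
    · refine ⟨(hA.1 hf).1, ?_⟩
      by_contra hc
      push Not at hc
      have h2 : ∀ e ∈ L, f ∈ e → ∃ o ∈ e, u o ∉ V := by
        intro e he hfe
        obtain ⟨y, hy, hyQ, hyf⟩ := hc e he hfe
        by_contra hall
        push Not at hall
        have h3 : ∃ s ∈ A, s ∉ e := by
          by_contra h
          push Not at h
          have := card_le_card (show A ⊆ e from h)
          rw [H.three e he] at this
          omega
        obtain ⟨s, hs, hse⟩ := h3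
        exact hse (H.inc e he f hfe y hy hyf.symm s (hcol f hf y (hA.2 ⟨hyQ, hall y hy⟩) s hs
          hyf.symm))
      obtain ⟨l1, l2, l3, h12, h13, h23, m1, m2, m3, f1, f2, f3, -⟩ := H.three_lines f
      obtain ⟨o1, ho1, v1⟩ := h2 l1 m1 f1
      obtain ⟨o2, ho2, v2⟩ := h2 l2 m2 f2
      obtain ⟨o3, ho3, v3⟩ := h2 l3 m3 f3
      have hf3 : f ≠ o3 := fun h => v3 (h ▸ (hA.1 hf).2)
      rcases H.cover hV (hA.1 hf).2 m1 m2 f1 f2 h12 ho1 v1 ho2 v2 v3 with h | h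
      · exact h13 (H.lin l1 m1 l3 m3 f o3 hf3 f1 h f3 ho3)
      · exact h23 (H.lin l2 m2 l3 m3 f o3 hf3 f2 h f3 ho3)

theorem tetra {V : Submodule ℝ E} (hV : (univ \ pts u V).card = 4) :
    ∃ W : Submodule ℝ E, finrank ℝ W ≤ 4 ∧ (univ \ pts u W).card = 4 ∧
      (pts u V ∩ pts u W).card = 6 ∧
      (∀ f, u f ∈ V → ∀ e ∈ L, ∀ e' ∈ L, f ∈ e → f ∈ e' → (∃ o ∈ e, u o ∉ V) →
        (∃ o ∈ e', u o ∉ V) → e = e') ∧
      (∀ f ∈ pts u V ∩ pts u W, ∃ e ∈ L, f ∈ e ∧ ∃ o ∈ e, u o ∉ V) ∧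
      (∀ e ∈ L, (∃ o ∈ e, u o ∉ V) → ∀ y ∈ e, u y ∈ W) := by
  classical
  have uniq : ∀ f, u f ∈ V → ∀ e ∈ L, ∀ e' ∈ L, f ∈ e → f ∈ e' → (∃ o ∈ e, u o ∉ V) →
        (∃ o ∈ e', u o ∉ V) → e = e' := by
    rintro f hf e he e' he' hfe hfe' ⟨o, ho, hoV⟩ ⟨o', ho', hoV'⟩
    by_contra hne
    refine H.planar (Q := span ℝ {u f, u o} ⊔ span ℝ {u o'}) hV finrank_three fun p hp => ?_
    have h1 : u f ∈ span ℝ {u f, u o} ⊔ span ℝ {u o'} :=
      (le_sup_left : span ℝ {u f, u o} ≤ _) (subset_span (by simp))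
    have h2 : u o ∈ span ℝ {u f, u o} ⊔ span ℝ {u o'} :=
      (le_sup_left : span ℝ {u f, u o} ≤ _) (subset_span (by simp))
    have h3 : u o' ∈ span ℝ {u f, u o} ⊔ span ℝ {u o'} :=
      (le_sup_right : span ℝ {u o'} ≤ _) (subset_span (by simp))
    rcases H.cover hV hf he he' hfe hfe' hne ho hoV ho' hoV' hp with h | h
    · exact H.flat he hfe ho h (fun h => hoV (h ▸ hf)) h1 h2
    · exact H.flat he' hfe' ho' h (fun h => hoV' (h ▸ hf)) h1 h3
  obtain ⟨a, b, c, d, hOe⟩ : ∃ a b c d, univ \ pts u V = {a, b, c, d} := by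
    obtain ⟨a, ha⟩ : (univ \ pts u V).Nonempty := card_pos.1 (by omega)
    have h1 : ((univ \ pts u V).erase a).card = 3 := by rw [card_erase_of_mem ha, hV]
    obtain ⟨b, c, d, -, -, -, h2⟩ := card_eq_three.1 h1
    refine ⟨a, b, c, d, ?_⟩
    rw [← insert_erase ha, h2]
  set W := span ℝ {u a, u b} ⊔ span ℝ {u c} ⊔ span ℝ {u d} with hW
  have hOW : ∀ p, u p ∉ V → u p ∈ W := by
    intro p hp
    have h1 := H.mem_compl.2 hp
    rw [hOe] at h1
    simp only [mem_insert, mem_singleton] at h1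
    have k1 : span ℝ {u a, u b} ≤ W := le_sup_left.trans le_sup_left
    have k2 : span ℝ {u c} ≤ W := le_sup_right.trans le_sup_left
    have k3 : span ℝ {u d} ≤ W := le_sup_right
    rcases h1 with rfl | rfl | rfl | rfl
    · exact k1 (subset_span (by simp))
    · exact k1 (subset_span (by simp))
    · exact k2 (subset_span (by simp))
    · exact k3 (subset_span (by simp))
  have hW4 : finrank ℝ W ≤ 4 := finrank_four
  have clos : ∀ e ∈ L, (∃ o ∈ e, u o ∉ V) → ∀ y ∈ e, u y ∈ W := by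
    rintro e he ⟨o, ho, hoV⟩ y hy
    obtain ⟨z, g, hz, hg, hzo, -, -, hze, -, -⟩ := H.line4 hV hoV he ho
    exact H.flat he ho hze hy hzo.symm (hOW o hoV) (hOW z hz)
  set LO := L.filter fun ℓ => ∃ o ∈ ℓ, u o ∉ V with hLO
  have hLO6 : LO.card = 6 := by
    have h1 := sum_card_bipartiteAbove_eq_sum_card_bipartiteBelow (s := univ \ pts u V) (t := L)
      (fun (o : P) (ℓ : Finset P) => o ∈ ℓ)
    have h2 : ∑ o ∈ univ \ pts u V, (L.bipartiteAbove (fun (o : P) (ℓ : Finset P) => o ∈ ℓ) o).card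
        = 12 := by
      rw [sum_congr rfl fun o _ => show _ = 3 by rw [← H.deg o]; unfold bipartiteAbove; congr,
        sum_const, hV]
      rfl
    have h3 : ∑ ℓ ∈ L, ((univ \ pts u V).bipartiteBelow
        (fun (o : P) (ℓ : Finset P) => o ∈ ℓ) ℓ).card = ∑ ℓ ∈ LO, 2 := by
      rw [hLO, sum_filter]
      refine sum_congr rfl fun ℓ hℓ => ?_
      split_ifs with h
      · obtain ⟨o, ho, hoV⟩ := h
        obtain ⟨y, f, hy, hf, hyo, hfo, hfy, hyℓ, hfℓ, h4⟩ := H.line4 hV hoV hℓ ho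
        rw [← card_pair hyo.symm]
        congr 1
        ext p
        rw [mem_bipartiteBelow, H.mem_compl, mem_insert, mem_singleton]
        constructor
        · rintro ⟨h5, h6⟩
          rcases h4 p h6 with h | h | h
          · exact Or.inl h
          · exact Or.inr h
          · exact absurd (h ▸ hf) h5
        · rintro (rfl | rfl)
          · exact ⟨hoV, ho⟩
          · exact ⟨hy, hyℓ⟩
      · rw [card_eq_zero, eq_empty_iff_forall_notMem]
        intro p hp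
        rw [mem_bipartiteBelow] at hp
        exact h ⟨p, hp.2, H.mem_compl.1 hp.1⟩
    rw [h2, h3, sum_const, smul_eq_mul] at h1
    omega
  have hg : ∀ ℓ ∈ LO, ∃ f ∈ ℓ, f ∈ pts u V ∩ pts u W := by
    intro ℓ hℓ
    obtain ⟨h1, o, ho, hoV⟩ := mem_filter.1 hℓ
    obtain ⟨y, f, hy, hf, hyo, hfo, hfy, hyℓ, hfℓ, h4⟩ := H.line4 hV hoV h1 ho
    exact ⟨f, hfℓ, mem_inter.2 ⟨mem_pts.2 hf, mem_pts.2 (clos ℓ h1 ⟨o, ho, hoV⟩ f hfℓ)⟩⟩
  have : Nonempty P := ⟨a⟩
  choose! g hg using hg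
  have ginj : Set.InjOn g LO := by
    intro ℓ hℓ m hm h
    have h1 := hg ℓ hℓ
    have h2 := hg m hm
    obtain ⟨h3, h3'⟩ := mem_filter.1 hℓ
    obtain ⟨h4, h4'⟩ := mem_filter.1 hm
    rw [← h] at h2
    exact uniq (g ℓ) (mem_pts.1 (mem_inter.1 h1.2).1) ℓ h3 m h4 h1.1 h2.1 h3' h4'
  have hle : 6 ≤ (pts u V ∩ pts u W).card := by
    rw [← hLO6]
    exact card_le_card_of_injOn g (fun ℓ hℓ => mem_coe.2 (hg ℓ hℓ).2) ginj
  have hsum : (pts u W).card = (pts u V ∩ pts u W).card + 4 := by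
    rw [← card_inter_add_card_sdiff (pts u W) (pts u V), inter_comm, ← hV]
    congr 2
    ext p
    rw [mem_sdiff, mem_pts, mem_pts, H.mem_compl]
    exact ⟨fun h => h.2, fun h => ⟨hOW p h, h⟩⟩
  have hb := H.pts_le hW4
  have hN := H.cardP
  have h6 : (pts u V ∩ pts u W).card = 6 := by omega
  refine ⟨W, hW4, ?_, h6, uniq, ?_, clos⟩
  · rw [card_univ_sdiff]
    omega
  · have himg : LO.image g = pts u V ∩ pts u W := by
      refine eq_of_subset_of_card_le ?_ ?_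
      · intro f hf
        obtain ⟨ℓ, hℓ, rfl⟩ := mem_image.1 hf
        exact (hg ℓ hℓ).2
      · rw [card_image_of_injOn ginj, hLO6, h6]
    intro f hf
    rw [← himg] at hf
    obtain ⟨ℓ, hℓ, rfl⟩ := mem_image.1 hf
    obtain ⟨h1, h2⟩ := mem_filter.1 hℓ
    exact ⟨ℓ, h1, (hg ℓ hℓ).1, h2⟩

end Sys

end Pool.Agent.R158.N3
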