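import Mathlib
import Pool.Agent.R158.N3.Four

/-!
# There is no system
-/

set_option autoImplicit false
set_option linter.unusedSectionVars false

namespace Pool.Agent.R158.N3

open Finset Module Submodule

variable {P E : Type} [Fintype P] [DecidableEq P] [AddCommGroup E] [Module ℝ E]
  [FiniteDimensional ℝ E]

namespace Sys

variable {L : Finset (Finset P)} {u : P → E} (H : Sys L u)
include H

theorem mem_pl1 {a b c : P} : u a ∈ span ℝ {u a, u b} ⊔ span ℝ {u c} :=
  (le_sup_left : span ℝ {u a, u b} ≤ _) (subset_span (by simp))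

theorem mem_pl2 {a b c : P} : u b ∈ span ℝ {u a, u b} ⊔ span ℝ {u c} :=
  (le_sup_left : span ℝ {u a, u b} ≤ _) (subset_span (by simp))

theorem mem_pl3 {a b c : P} : u c ∈ span ℝ {u a, u b} ⊔ span ℝ {u c} :=
  (le_sup_right : span ℝ {u c} ≤ _) (subset_span (by simp))

/-- no flat misses exactly four points -/
theorem no_four {V : Submodule ℝ E} (hV : (univ \ pts u V).card = 4) : False := by
  classical
  obtain ⟨W, hW4, hW, h6, uniqO, exO, closO⟩ := H.tetra hV
  obtain ⟨W', hW4', hW', h6', uniqR, exR, closR⟩ := H.tetra hW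
  set F := pts u V ∩ pts u W with hF
  have memF : ∀ {p : P}, p ∈ F ↔ u p ∈ V ∧ u p ∈ W := by
    intro p
    rw [hF, mem_inter, mem_pts, mem_pts]
  have hsub : pts u W ∩ pts u W' ⊆ F := by
    intro f hf
    have hf' := hf
    rw [mem_inter, mem_pts, mem_pts] at hf'
    refine memF.2 ⟨?_, hf'.1⟩
    by_contra hfV
    obtain ⟨e, he, hfe, r, hr, hrW⟩ := exR f hf
    exact hrW (closO e he ⟨f, hfe, hfV⟩ r hr)
  have hFe : pts u W ∩ pts u W' = F := eq_of_subset_of_card_le hsub (by rw [h6, h6'])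
  -- the line through a point of `F` which is contained in `F`
  have UF : ∀ f ∈ F, ∃ M ∈ L, f ∈ M ∧ (∀ y ∈ M, y ∈ F) ∧
      ∀ M' ∈ L, f ∈ M' → (∀ y ∈ M', y ∈ F) → M' = M := by
    intro f hf
    obtain ⟨eO, heO, hfO, o, ho, hoV⟩ := exO f hf
    obtain ⟨eR, heR, hfR, r, hr, hrW⟩ := exR f (hFe ▸ hf)
    have hne : eO ≠ eR := by
      rintro rfl
      exact hrW (closO eO heO ⟨o, ho, hoV⟩ r hr)
    have h1 : ∃ t ∈ L.filter (f ∈ ·), t ∉ ({eO, eR} : Finset (Finset P)) := by
      by_contra h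
      push Not at h
      have := card_le_card (show L.filter (f ∈ ·) ⊆ ({eO, eR} : Finset (Finset P)) from h)
      rw [H.deg, card_pair hne] at this
      omega
    obtain ⟨t, ht, htn⟩ := h1
    obtain ⟨htL, hft⟩ := mem_filter.1 ht
    simp only [mem_insert, mem_singleton, not_or] at htn
    refine ⟨t, htL, hft, fun y hy => memF.2 ⟨?_, ?_⟩, fun M' hM' hfM' hMF => ?_⟩
    · by_contra hyV
      exact htn.1 (uniqO f (memF.1 hf).1 t htL eO heO hft hfO ⟨y, hy, hyV⟩ ⟨o, ho, hoV⟩)
    · by_contra hyW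
      exact htn.2 (uniqR f (memF.1 hf).2 t htL eR heR hft hfR ⟨y, hy, hyW⟩ ⟨r, hr, hrW⟩)
    · by_contra hMt
      have h2 : ({eO, eR, t, M'} : Finset (Finset P)) ⊆ L.filter (f ∈ ·) := by
        intro m hm
        simp only [mem_insert, mem_singleton] at hm
        rw [mem_filter]
        rcases hm with rfl | rfl | rfl | rfl <;> exact ⟨by assumption, by assumption⟩
      have h3 := card_le_card h2
      rw [H.deg, card_insert_of_notMem, card_insert_of_notMem, card_pair (Ne.symm hMt)] at h3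
      · omega
      · simp only [mem_insert, mem_singleton, not_or]
        refine ⟨fun h => htn.2 h.symm, fun h => ?_⟩
        exact hrW (memF.1 (hMF r (h ▸ hr))).2
      · simp only [mem_insert, mem_singleton, not_or]
        refine ⟨hne, fun h => htn.1 h.symm, fun h => ?_⟩
        exact hoV (memF.1 (hMF o (h ▸ ho))).1
  have ne : ∀ {p f : P}, u p ∉ V → u f ∈ V → p ≠ f := fun hp hf h => hp (h ▸ hf)
  have tri : ∀ M ∈ L, (∀ y ∈ M, y ∈ F) → ∀ fi ∈ M, ∀ fj ∈ M, fi ≠ fj → ∀ ei ∈ L, ∀ ej ∈ L,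
      fi ∈ ei → fj ∈ ej → ∀ o, u o ∉ V → o ∈ ei → o ∈ ej → False := by
    intro M hM hMF fi hfi fj hfj hij ei hei ej hej hfie hfje o hoV hoi hoj
    have hfiV := (memF.1 (hMF fi hfi)).1
    have hfjV := (memF.1 (hMF fj hfj)).1
    obtain ⟨x, g1, hx, hg1, hxo, -, -, hxi, -, s1⟩ := H.line4 hV hoV hei hoi
    obtain rfl : fi = g1 := by
      rcases s1 fi hfie with h | h | h
      · exact absurd h (ne hoV hfiV).symm
      · exact absurd h (ne hx hfiV).symm
      · exact h
    obtain ⟨y, g2, hy, hg2, hyo, -, -, hyj, -, s2⟩ := H.line4 hV hoV hej hoj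
    obtain rfl : fj = g2 := by
      rcases s2 fj hfje with h | h | h
      · exact absurd h (ne hoV hfjV).symm
      · exact absurd h (ne hy hfjV).symm
      · exact h
    have hxy : x ≠ y := by
      rintro rfl
      have := H.lin ei hei ej hej o x hxo.symm hoi hxi hoj hyj
      rw [this] at hfie
      rcases s2 fi hfie with h | h | h
      · exact (ne hoV hfiV) h.symm
      · exact (ne hx hfiV) h.symm
      · exact hij h
    have hxj : x ∉ ej := by
      intro h
      rcases s2 x h with h | h | h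
      · exact hxo h
      · exact hxy h
      · exact ne hx hfjV h
    have hyi : y ∉ ei := by
      intro h
      rcases s1 y h with h | h | h
      · exact hyo h
      · exact hxy h.symm
      · exact ne hy hfiV h
    obtain ⟨z, hz⟩ : ((((univ \ pts u V).erase o).erase x).erase y).Nonempty := by
      rw [← card_pos, card_erase_of_mem, card_erase_of_mem, card_erase_of_mem, hV]
      · omega
      · exact H.mem_compl.2 hoV
      · exact mem_erase.2 ⟨hxo, H.mem_compl.2 hx⟩
      · exact mem_erase.2 ⟨hxy.symm, mem_erase.2 ⟨hyo, H.mem_compl.2 hy⟩⟩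
    rw [mem_erase, mem_erase, mem_erase, H.mem_compl] at hz
    obtain ⟨hzy, hzx, hzo, hzV⟩ := hz
    have hzi : z ∉ ei := by
      intro h
      rcases s1 z h with h | h | h
      · exact hzo h
      · exact hzx h
      · exact ne hzV hfiV h
    have hzj : z ∉ ej := by
      intro h
      rcases s2 z h with h | h | h
      · exact hzo h
      · exact hzy h
      · exact ne hzV hfjV h
    obtain ⟨lxy, hlxy, g, xy1, xy2, xy3, xy4, xy5⟩ := H.pair4 hV hx hy hxy
    obtain ⟨loz, hloz, f', oz1, oz2, oz3, oz4, oz5⟩ := H.pair4 hV hoV hzV hzo.symm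
    obtain ⟨lxz, hlxz, f'', xz1, xz2, xz3, xz4, xz5⟩ := H.pair4 hV hx hzV hzx.symm
    have hgF : g ∈ F := memF.2 ⟨xy4, closO lxy hlxy ⟨x, xy1, hx⟩ g xy3⟩
    have hf'F : f' ∈ F := memF.2 ⟨oz4, closO loz hloz ⟨o, oz1, hoV⟩ f' oz3⟩
    have hf''F : f'' ∈ F := memF.2 ⟨xz4, closO lxz hlxz ⟨x, xz1, hx⟩ f'' xz3⟩
    have hzxy : z ∉ lxy := by
      intro h
      rcases xy5 z h with h | h | h
      · exact hzx h
      · exact hzy h
      · exact ne hzV xy4 h
    have hoxy : o ∉ lxy := by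
      intro h
      rcases xy5 o h with h | h | h
      · exact hxo h.symm
      · exact hyo h.symm
      · exact ne hoV xy4 h
    have hxoz : x ∉ loz := by
      intro h
      rcases oz5 x h with h | h | h
      · exact hxo h
      · exact hzx h.symm
      · exact ne hx oz4 h
    -- different lines through the four points have different third points
    have dif : ∀ {l m : Finset P} {f h w p q : P}, l ∈ L → m ∈ L → f ∈ l → h ∈ m → u f ∈ V →
        p ∈ l → u p ∉ V → q ∈ m → u q ∉ V → w ∈ l → w ∉ m → f ≠ h := by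
      intro l m f h w p q hl hm hf hh hfV hp hpV hq hqV hw hwm hfh
      subst hfh
      have := uniqO f hfV l hl m hm hf hh ⟨p, hp, hpV⟩ ⟨q, hq, hqV⟩
      exact hwm (this ▸ hw)
    have hgi : g ≠ fi := dif hlxy hei xy3 hfie xy4 xy1 hx hoi hoV xy2 hyi
    have hgj : g ≠ fj := dif hlxy hej xy3 hfje xy4 xy1 hx hoj hoV xy1 hxj
    have hgM : g ∈ M := by
      refine H.inc M hM fi hfi fj hfj hij g ?_
      refine H.COL (F := span ℝ {u o, u x} ⊔ span ℝ {u y}) (V := V) finrank_three H.mem_pl1 hoV hij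
        ?_ ?_ ?_ hfiV hfjV xy4
      · exact H.flat hei hoi hxi hfie hxo.symm H.mem_pl1 H.mem_pl2
      · exact H.flat hej hoj hyj hfje hyo.symm H.mem_pl1 H.mem_pl3
      · exact H.flat hlxy xy1 xy2 xy3 hxy H.mem_pl2 H.mem_pl3
    have hMe : ∀ s ∈ M, s = fi ∨ s = fj ∨ s = g := by
      obtain ⟨r, hr, hri, hrj, h⟩ := H.third hM hfi hfj hij
      obtain rfl : g = r := by
        rcases h g hgM with h | h | h
        · exact absurd h hgi
        · exact absurd h hgj
        · exact h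
      exact h
    have hf'M : f' ∉ M := by
      intro h
      rcases hMe f' h with h | h | h
      · exact dif hloz hei oz3 hfie oz4 oz1 hoV hoi hoV oz2 hzi h
      · exact dif hloz hej oz3 hfje oz4 oz1 hoV hoj hoV oz2 hzj h
      · exact dif hloz hlxy oz3 xy3 oz4 oz1 hoV xy1 hx oz1 hoxy h
    have hf''M : f'' ∉ M := by
      intro h
      rcases hMe f'' h with h | h | h
      · exact dif hlxz hei xz3 hfie xz4 xz1 hx hoi hoV xz2 hzi h
      · exact dif hlxz hej xz3 hfje xz4 xz1 hx hoj hoV xz1 hxj h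
      · exact dif hlxz hlxy xz3 xy3 xz4 xz1 hx xy1 hx xz2 hzxy h
    have hff : f' ≠ f'' :=
      (dif hlxz hloz xz3 oz3 xz4 xz1 hx oz1 hoV xz1 hxoz).symm
    obtain ⟨M', hM', hf'M', hM'F, -⟩ := UF f' hf'F
    have hdis : ∀ s ∈ M, s ∉ M' := by
      intro s hs hs'
      obtain ⟨N, -, -, -, hN⟩ := UF s (hMF s hs)
      have h1 := hN M hM hs hMF
      have h2 := hN M' hM' hs' hM'F
      exact hf'M (by rw [h1, ← h2]; exact hf'M')
    have hM'e : M' = F \ M := by
      refine eq_of_subset_of_card_le (fun s hs => mem_sdiff.2 ⟨hM'F s hs, fun h => hdis s h hs⟩) ?_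
      rw [card_sdiff_of_subset (fun s hs => hMF s hs), h6, H.three M hM, H.three M' hM']
    have hf''M' : f'' ∈ M' := by
      rw [hM'e]
      exact mem_sdiff.2 ⟨hf''F, hf''M⟩
    apply hdis fi hfi
    refine H.inc M' hM' f' hf'M' f'' hf''M' hff fi ?_
    refine H.COL (F := span ℝ {u o, u x} ⊔ span ℝ {u z}) (V := V) finrank_three H.mem_pl1 hoV hff
      ?_ ?_ ?_ oz4 xz4 hfiV
    · exact H.flat hloz oz1 oz2 oz3 hzo.symm H.mem_pl1 H.mem_pl3
    · exact H.flat hlxz xz1 xz2 xz3 hzx.symm H.mem_pl2 H.mem_pl3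
    · exact H.flat hei hoi hxi hfie hxo.symm H.mem_pl1 H.mem_pl2
  -- find two lines with a common point
  obtain ⟨f1, hf1⟩ : F.Nonempty := card_pos.1 (by omega)
  obtain ⟨M, hM, hf1M, hMF, -⟩ := UF f1 hf1
  have h1 : ∃ f2 ∈ M, f2 ≠ f1 := by
    by_contra hc
    push Not at hc
    have : M ⊆ {f1} := fun y hy => mem_singleton.2 (hc y hy)
    have := card_le_card this
    rw [H.three M hM, card_singleton] at this
    omega
  obtain ⟨f2, hf2M, h21⟩ := h1
  obtain ⟨f3, hf3M, h31, h32, -⟩ := H.third hM hf1M hf2M h21.symm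
  obtain ⟨e1, he1, k1, o1, m1, v1⟩ := exO f1 hf1
  obtain ⟨e2, he2, k2, o2, m2, v2⟩ := exO f2 (hMF f2 hf2M)
  obtain ⟨e3, he3, k3, o3, m3, v3⟩ := exO f3 (hMF f3 hf3M)
  obtain ⟨y1, g1, hy1, hg1, hyo1, -, -, hye1, -, -⟩ := H.line4 hV v1 he1 m1
  obtain ⟨y2, g2, hy2, hg2, hyo2, -, -, hye2, -, -⟩ := H.line4 hV v2 he2 m2
  have t12 := fun o hoV h h' => tri M hM hMF f1 hf1M f2 hf2M h21.symm e1 he1 e2 he2 k1 k2 o hoV h h'
  have t13 := fun o hoV h h' => tri M hM hMF f1 hf1M f3 hf3M h31.symm e1 he1 e3 he3 k1 k3 o hoV h h'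
  have t23 := fun o hoV h h' => tri M hM hMF f2 hf2M f3 hf3M h32.symm e2 he2 e3 he3 k2 k3 o hoV h h'
  have h2 : ({o1, y1, o2, y2} : Finset P) = univ \ pts u V := by
    refine eq_of_subset_of_card_le ?_ ?_
    · intro p hp
      simp only [mem_insert, mem_singleton] at hp
      rw [H.mem_compl]
      rcases hp with rfl | rfl | rfl | rfl <;> assumption
    · rw [hV, card_insert_of_notMem, card_insert_of_notMem, card_insert_of_notMem,
        card_singleton]
      · rw [mem_singleton]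
        exact hyo2.symm
      · simp only [mem_insert, mem_singleton, not_or]
        exact ⟨fun h => t12 y1 hy1 hye1 (h ▸ m2), fun h => t12 y1 hy1 hye1 (h ▸ hye2)⟩
      · simp only [mem_insert, mem_singleton, not_or]
        exact ⟨hyo1.symm, fun h => t12 o1 v1 m1 (h ▸ m2), fun h => t12 o1 v1 m1 (h ▸ hye2)⟩
  have h3 := H.mem_compl.2 v3
  rw [← h2] at h3
  simp only [mem_insert, mem_singleton] at h3
  rcases h3 with rfl | rfl | rfl | rfl
  · exact t13 _ v1 m1 m3
  · exact t13 _ hy1 hye1 m3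
  · exact t23 _ v2 m2 m3
  · exact t23 _ hy2 hye2 m3

theorem pts_le5 {V : Submodule ℝ E} (hV : finrank ℝ V ≤ 4) :
    (pts u V).card + 5 ≤ Fintype.card P := by
  have h1 := H.pts_le hV
  by_contra hc
  refine H.no_four (V := V) ?_
  rw [card_univ_sdiff]
  omega

/-- the star of a point -/
theorem star (x : P) : ∃ S : Finset P, S.card = 7 ∧ ∀ y ∈ S, ∃ ℓ ∈ L, x ∈ ℓ ∧ y ∈ ℓ := by
  obtain ⟨a, b, c, hab, hac, hbc, ha, hb, hc, xa, xb, xc, -⟩ := H.three_lines x
  refine ⟨insert x ((a.erase x) ∪ (b.erase x) ∪ (c.erase x)), ?_, fun y hy => ?_⟩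
  · rw [card_insert_of_notMem, card_union_of_disjoint, card_union_of_disjoint,
      card_erase_of_mem xa, card_erase_of_mem xb, card_erase_of_mem xc, H.three a ha, H.three b hb,
      H.three c hc]
    · rw [disjoint_left]
      intro y h1 h2
      rw [mem_erase] at h1 h2
      exact hab (H.lin a ha b hb x y h1.1.symm xa h1.2 xb h2.2)
    · rw [disjoint_left]
      intro y h1 h2
      rw [mem_union, mem_erase, mem_erase] at h1
      rw [mem_erase] at h2
      rcases h1 with h1 | h1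
      · exact hac (H.lin a ha c hc x y h1.1.symm xa h1.2 xc h2.2)
      · exact hbc (H.lin b hb c hc x y h1.1.symm xb h1.2 xc h2.2)
    · simp
  · simp only [mem_insert, mem_union, mem_erase] at hy
    rcases hy with rfl | (⟨-, h⟩ | ⟨-, h⟩) | ⟨-, h⟩
    · exact ⟨a, ha, xa, xa⟩
    · exact ⟨a, ha, xa, h⟩
    · exact ⟨b, hb, xb, h⟩
    · exact ⟨c, hc, xc, h⟩

/-- if no line through `x` meets `F` then `F` misses seven points -/
theorem star_out {F : Submodule ℝ E} {x : P} (h : ∀ ℓ ∈ L, x ∈ ℓ → ∀ y ∈ ℓ, u y ∉ F) :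
    (pts u F).card + 7 ≤ Fintype.card P := by
  obtain ⟨S, hS, h1⟩ := H.star x
  have h2 : Disjoint (pts u F) S := by
    rw [disjoint_left]
    intro y hy hyS
    obtain ⟨ℓ, hℓ, hx, hyℓ⟩ := h1 y hyS
    exact h ℓ hℓ hx y hyℓ (mem_pts.1 hy)
  have h3 := card_le_univ (pts u F ∪ S)
  rw [card_union_of_disjoint h2, hS] at h3
  exact h3

/-- each plane misses at least seven points -/
theorem plane_le {F : Submodule ℝ E} (hF : finrank ℝ F ≤ 3) :
    (pts u F).card + 7 ≤ Fintype.card P := by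
  by_contra hc
  obtain ⟨x, hx⟩ := H.big F (hF.trans (by omega))
  refine hc (H.star_out (x := x) fun ℓ hℓ hxℓ y hy hyF => ?_)
  have h1 := H.add_point hx (S := {ℓ}) (by
    intro m hm
    rw [mem_singleton] at hm
    subst hm
    exact ⟨hℓ, hxℓ, y, hy, hyF⟩)
  rw [card_singleton] at h1
  have h2 := H.pts_le5 (finrank_sup_sing (x := u x) hF)
  omega

end Sys

end Pool.Agent.R158.N3
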