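import Mathlib
import Pool.Agent.R158.N3.Main

/-!
# There is no system: the end of the proof
-/

set_option autoImplicit false
set_option linter.unusedSectionVars false

namespace Pool.Agent.R158.N3

open Finset Module Submodule

variable {P E : Type} [Fintype P] [DecidableEq P] [AddCommGroup E] [Module ℝ E]
  [FiniteDimensional ℝ E]

namespace Sys

variable {L : Finset (Finset P)} {u : P → E} (H : Sys L u)
include H

theorem two_more {x : P} {ℓ : Finset P} (hℓ : ℓ ∈ L) (hx : x ∈ ℓ) : ∃ b ∈ L, ∃ c ∈ L, x ∈ b ∧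
    x ∈ c ∧ b ≠ c ∧ b ≠ ℓ ∧ c ≠ ℓ := by
  have h1 : ((L.filter (x ∈ ·)).erase ℓ).card = 2 := by
    rw [card_erase_of_mem (mem_filter.2 ⟨hℓ, hx⟩), H.deg]
  obtain ⟨b, c, hbc, h⟩ := card_eq_two.1 h1
  have hb : b ∈ (L.filter (x ∈ ·)).erase ℓ := by rw [h]; simp
  have hc : c ∈ (L.filter (x ∈ ·)).erase ℓ := by rw [h]; simp
  rw [mem_erase, mem_filter] at hb hc
  exact ⟨b, hb.2.1, c, hc.2.1, hb.2.2, hc.2.2, hbc, hb.1, hc.1⟩

/-- no flat misses exactly five points -/
theorem no_five {V : Submodule ℝ E} (hV : (univ \ pts u V).card = 5) : False := by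
  classical
  have hN := H.cardP
  have hT : ∃ T ∈ L, ∀ y ∈ T, u y ∉ V := by
    by_contra hc
    push Not at hc
    have h1 := sum_card_bipartiteAbove_eq_sum_card_bipartiteBelow (s := univ \ pts u V) (t := L)
      (fun (o : P) (ℓ : Finset P) => o ∈ ℓ)
    have h2 : ∑ o ∈ univ \ pts u V, (L.bipartiteAbove (fun (o : P) (ℓ : Finset P) => o ∈ ℓ) o).card
        = 15 := by
      rw [sum_congr rfl fun o _ => show _ = 3 by rw [← H.deg o]; unfold bipartiteAbove; congr,
        sum_const, hV]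
      rfl
    have h3 : ∀ ℓ ∈ L, Even ((univ \ pts u V).bipartiteBelow
        (fun (o : P) (ℓ : Finset P) => o ∈ ℓ) ℓ).card := by
      intro ℓ hℓ
      by_cases h : ∃ o ∈ ℓ, u o ∉ V
      · obtain ⟨o, ho, hoV⟩ := h
        obtain ⟨y, hy, hyo, hyℓ⟩ := H.other hoV hℓ ho
        rw [H.mem_compl] at hy
        obtain ⟨f, hf, hfo, hfy, h4⟩ := H.third hℓ ho hyℓ hyo.symm
        obtain ⟨g, hg, hgV⟩ := hc ℓ hℓ
        have hfV : u f ∈ V := by
          rcases h4 g hg with rfl | rfl | rfl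
          · exact absurd hgV hoV
          · exact absurd hgV hy
          · exact hgV
        have h5 : (univ \ pts u V).bipartiteBelow (fun (o : P) (ℓ : Finset P) => o ∈ ℓ) ℓ
            = {o, y} := by
          ext p
          rw [mem_bipartiteBelow, H.mem_compl, mem_insert, mem_singleton]
          constructor
          · rintro ⟨h5, h6⟩
            rcases h4 p h6 with h | h | h
            · exact Or.inl h
            · exact Or.inr h
            · exact absurd (h ▸ hfV) h5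
          · rintro (rfl | rfl)
            · exact ⟨hoV, ho⟩
            · exact ⟨hy, hyℓ⟩
        rw [h5, card_pair hyo.symm]
        exact even_two
      · have h5 : (univ \ pts u V).bipartiteBelow (fun (o : P) (ℓ : Finset P) => o ∈ ℓ) ℓ
            = ∅ := by
          rw [eq_empty_iff_forall_notMem]
          intro p hp
          rw [mem_bipartiteBelow] at hp
          exact h ⟨p, hp.2, H.mem_compl.1 hp.1⟩
        rw [h5, card_empty]
        exact Even.zero
    have h4 : Even (15 : ℕ) := by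
      rw [← h2, h1]
      exact Finset.even_sum _ h3
    exact absurd h4 (by decide)
  obtain ⟨T, hT, hTV⟩ := hT
  have hTO : T ⊆ univ \ pts u V := fun y hy => H.mem_compl.2 (hTV y hy)
  have hR : ((univ \ pts u V) \ T).card = 2 := by
    rw [card_sdiff_of_subset hTO, hV, H.three T hT]
  obtain ⟨p, q, hpq, hpqe⟩ := card_eq_two.1 hR
  have hmem : ∀ {r : P}, r ∈ ({p, q} : Finset P) ↔ u r ∉ V ∧ r ∉ T := by
    intro r
    rw [← hpqe, mem_sdiff, H.mem_compl]
  have hp := hmem.1 (show p ∈ ({p, q} : Finset P) by simp)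
  have hq := hmem.1 (show q ∈ ({p, q} : Finset P) by simp)
  have key : ∀ i ∈ T, ∀ r ∈ ({p, q} : Finset P), ∃ ℓ ∈ L, i ∈ ℓ ∧ r ∈ ℓ ∧ ∃ f ∈ ℓ, u f ∈ V := by
    intro i hi
    obtain ⟨b, hb, c, hc, hib, hic, hbc, hbT, hcT⟩ := H.two_more hT hi
    have out : ∀ b ∈ L, i ∈ b → b ≠ T → ∀ y ∈ b, y ≠ i → y ∉ T := fun b hb hib hbT y hy hyi hyT =>
      hbT (H.lin b hb T hT i y hyi.symm hib hy hi hyT)
    obtain ⟨y, hy, hyi, hyb⟩ := H.other (hTV i hi) hb hib
    obtain ⟨z, hz, hzi, hzc⟩ := H.other (hTV i hi) hc hic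
    rw [H.mem_compl] at hy hz
    have hyT := out b hb hib hbT y hyb hyi
    have hzT := out c hc hic hcT z hzc hzi
    have hyz : y ≠ z := by
      rintro rfl
      exact hbc (H.lin b hb c hc i y hyi.symm hib hyb hic hzc)
    have hyz2 : ({y, z} : Finset P) = {p, q} := by
      refine eq_of_subset_of_card_le ?_ ?_
      · intro s hs
        rw [mem_insert, mem_singleton] at hs
        rw [hmem]
        rcases hs with rfl | rfl
        · exact ⟨hy, hyT⟩
        · exact ⟨hz, hzT⟩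
      · rw [card_pair hyz, card_pair hpq]
    -- the third point of such a line
    have thirdV : ∀ b ∈ L, ∀ c ∈ L, i ∈ b → i ∈ c → b ≠ c → b ≠ T → ∀ y z, y ∈ b → z ∈ c →
        y ≠ i → z ≠ i → ({y, z} : Finset P) = {p, q} → ∃ f ∈ b, u f ∈ V := by
      intro b hb c hc hib hic hbc hbT y z hyb hzc hyi hzi hyz2
      obtain ⟨f, hf, hfi, hfy, -⟩ := H.third hb hib hyb hyi.symm
      refine ⟨f, hf, ?_⟩
      by_contra hfV
      have h1 := hmem.2 ⟨hfV, out b hb hib hbT f hf hfi⟩
      rw [← hyz2, mem_insert, mem_singleton] at h1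
      rcases h1 with h1 | h1
      · exact hfy h1
      · exact hbc (H.lin b hb c hc i f hfi.symm hib hf hic (h1 ▸ hzc))
    intro r hr
    rw [← hyz2, mem_insert, mem_singleton] at hr
    rcases hr with rfl | rfl
    · exact ⟨b, hb, hib, hyb, thirdV b hb c hc hib hic hbc hbT _ _ hyb hzc hyi hzi hyz2⟩
    · exact ⟨c, hc, hic, hzc, thirdV c hc b hb hic hib hbc.symm hcT _ _ hzc hyb hzi hyi
        (by rw [pair_comm]; exact hyz2)⟩
  obtain ⟨a, b, c, hab, hac, hbc, hTe⟩ := card_eq_three.1 (H.three T hT)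
  have haT : a ∈ T := by rw [hTe]; simp
  have hbT : b ∈ T := by rw [hTe]; simp
  have hcT : c ∈ T := by rw [hTe]; simp
  obtain ⟨la, hla, la1, la2, fa, la3, la4⟩ := key a haT p (by simp)
  obtain ⟨lb, hlb, lb1, lb2, fb, lb3, lb4⟩ := key b hbT p (by simp)
  obtain ⟨lc, hlc, lc1, lc2, fc, lc3, lc4⟩ := key c hcT p (by simp)
  obtain ⟨ma, hma, ma1, ma2, -⟩ := key a haT q (by simp)
  obtain ⟨mb, hmb, mb1, mb2, -⟩ := key b hbT q (by simp)
  obtain ⟨mc, hmc, mc1, mc2, -⟩ := key c hcT q (by simp)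
  have ne : ∀ {p f : P}, u p ∉ V → u f ∈ V → p ≠ f := fun hp hf h => hp (h ▸ hf)
  have neT : ∀ {p r : P}, r ∉ T → p ∈ T → p ≠ r := fun hr hp h => hr (h ▸ hp)
  -- lines through `r` and different points of `T` are different
  have dif : ∀ {i j r : P} {l m : Finset P}, i ∈ T → j ∈ T → i ≠ j → r ∉ T → l ∈ L → i ∈ l →
      r ∈ l → j ∈ m → l ≠ m := by
    intro i j r l m hi hj hij hr hl hil hrl hjm h
    subst h
    exact hr ((H.lin l hl T hT i j hij hil hjm hi hj) ▸ hrl)
  have dfa : ∀ {i j f g : P} {l m : Finset P}, i ∈ T → j ∈ T → i ≠ j → l ∈ L → m ∈ L → i ∈ l →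
      p ∈ l → j ∈ m → p ∈ m → f ∈ l → g ∈ m → u f ∈ V → f ≠ g := by
    intro i j f g l m hi hj hij hl hm hil hpl hjm hpm hf hg hfV h
    subst h
    exact dif hi hj hij hp.2 hl hil hpl hjm (H.lin l hl m hm p f (ne hp.1 hfV) hpl hf hpm hg)
  set Q := span ℝ {u a, u b} ⊔ span ℝ {u p} with hQdef
  have hQ : finrank ℝ Q ≤ 3 := finrank_three
  have qa : u a ∈ Q := H.mem_pl1
  have qb : u b ∈ Q := H.mem_pl2
  have qp : u p ∈ Q := H.mem_pl3
  have qc : u c ∈ Q := H.flat hT haT hbT hcT hab qa qb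
  have qfa : u fa ∈ Q := H.flat hla la1 la2 la3 (neT hp.2 haT) qa qp
  have qfb : u fb ∈ Q := H.flat hlb lb1 lb2 lb3 (neT hp.2 hbT) qb qp
  have qfc : u fc ∈ Q := H.flat hlc lc1 lc2 lc3 (neT hp.2 hcT) qc qp
  have h7 : 7 ≤ (pts u Q).card := by
    have h1 : ({a, b, c, p, fa, fb, fc} : Finset P).card = 7 := by
      rw [card_insert_of_notMem, card_insert_of_notMem, card_insert_of_notMem,
        card_insert_of_notMem, card_insert_of_notMem, card_pair]
      · exact dfa hbT hcT hbc hlb hlc lb1 lb2 lc1 lc2 lb3 lc3 lb4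
      · simp only [mem_insert, mem_singleton, not_or]
        exact ⟨dfa haT hbT hab hla hlb la1 la2 lb1 lb2 la3 lb3 la4,
          dfa haT hcT hac hla hlc la1 la2 lc1 lc2 la3 lc3 la4⟩
      · simp only [mem_insert, mem_singleton, not_or]
        exact ⟨ne hp.1 la4, ne hp.1 lb4, ne hp.1 lc4⟩
      · simp only [mem_insert, mem_singleton, not_or]
        exact ⟨neT hp.2 hcT, ne (hTV c hcT) la4, ne (hTV c hcT) lb4, ne (hTV c hcT) lc4⟩
      · simp only [mem_insert, mem_singleton, not_or]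
        exact ⟨hbc, neT hp.2 hbT, ne (hTV b hbT) la4, ne (hTV b hbT) lb4, ne (hTV b hbT) lc4⟩
      · simp only [mem_insert, mem_singleton, not_or]
        exact ⟨hab, hac, neT hp.2 haT, ne (hTV a haT) la4, ne (hTV a haT) lb4,
          ne (hTV a haT) lc4⟩
    rw [← h1]
    refine card_le_card fun s hs => ?_
    simp only [mem_insert, mem_singleton] at hs
    rw [mem_pts]
    rcases hs with rfl | rfl | rfl | rfl | rfl | rfl | rfl <;> assumption
  have h8 := H.plane_le hQ
  have hqQ : u q ∉ Q := by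
    intro h
    -- then all the five points are in the plane, and there are at least eight points in it
    have h1 : (pts u Q).card = 7 := by omega
    have h2 : ({a, b, c, p, fa, fb, fc} : Finset P) = pts u Q := by
      refine eq_of_subset_of_card_le ?_ ?_
      · intro s hs
        simp only [mem_insert, mem_singleton] at hs
        rw [mem_pts]
        rcases hs with rfl | rfl | rfl | rfl | rfl | rfl | rfl <;> assumption
      · rw [h1]
        rw [card_insert_of_notMem, card_insert_of_notMem, card_insert_of_notMem,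
          card_insert_of_notMem, card_insert_of_notMem, card_pair]
        · exact dfa hbT hcT hbc hlb hlc lb1 lb2 lc1 lc2 lb3 lc3 lb4
        · simp only [mem_insert, mem_singleton, not_or]
          exact ⟨dfa haT hbT hab hla hlb la1 la2 lb1 lb2 la3 lb3 la4,
            dfa haT hcT hac hla hlc la1 la2 lc1 lc2 la3 lc3 la4⟩
        · simp only [mem_insert, mem_singleton, not_or]
          exact ⟨ne hp.1 la4, ne hp.1 lb4, ne hp.1 lc4⟩
        · simp only [mem_insert, mem_singleton, not_or]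
          exact ⟨neT hp.2 hcT, ne (hTV c hcT) la4, ne (hTV c hcT) lb4, ne (hTV c hcT) lc4⟩
        · simp only [mem_insert, mem_singleton, not_or]
          exact ⟨hbc, neT hp.2 hbT, ne (hTV b hbT) la4, ne (hTV b hbT) lb4, ne (hTV b hbT) lc4⟩
        · simp only [mem_insert, mem_singleton, not_or]
          exact ⟨hab, hac, neT hp.2 haT, ne (hTV a haT) la4, ne (hTV a haT) lb4,
            ne (hTV a haT) lc4⟩
    have h3 : q ∈ pts u Q := mem_pts.2 h
    rw [← h2] at h3
    simp only [mem_insert, mem_singleton] at h3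
    rcases h3 with h3 | h3 | h3 | h3 | h3 | h3 | h3
    · exact hq.2 (h3 ▸ haT)
    · exact hq.2 (h3 ▸ hbT)
    · exact hq.2 (h3 ▸ hcT)
    · exact hpq h3.symm
    · exact hq.1 (h3 ▸ la4)
    · exact hq.1 (h3 ▸ lb4)
    · exact hq.1 (h3 ▸ lc4)
  have h9 := H.add_point hqQ (S := {ma, mb, mc}) (by
    intro ℓ hℓ
    simp only [mem_insert, mem_singleton] at hℓ
    rcases hℓ with rfl | rfl | rfl
    · exact ⟨hma, ma2, a, ma1, qa⟩
    · exact ⟨hmb, mb2, b, mb1, qb⟩
    · exact ⟨hmc, mc2, c, mc1, qc⟩)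
  have h10 : ({ma, mb, mc} : Finset (Finset P)).card = 3 := card_eq_three.2 ⟨ma, mb, mc,
    dif haT hbT hab hq.2 hma ma1 ma2 mb1, dif haT hcT hac hq.2 hma ma1 ma2 mc1,
    dif hbT hcT hbc hq.2 hmb mb1 mb2 mc1, rfl⟩
  rw [h10] at h9
  have h11 := H.pts_le (finrank_sup_sing (x := u q) hQ)
  omega

theorem pts_le6 {V : Submodule ℝ E} (hV : finrank ℝ V ≤ 4) :
    (pts u V).card + 6 ≤ Fintype.card P := by
  have h1 := H.pts_le5 hV
  by_contra hc
  refine H.no_five (V := V) ?_
  rw [card_univ_sdiff]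
  omega

/-- there is a plane with at least six points -/
theorem exists_plane : ∃ F : Submodule ℝ E, finrank ℝ F ≤ 3 ∧ 6 ≤ (pts u F).card := by
  classical
  obtain ⟨p, -⟩ := H.big ⊥ (by simp)
  obtain ⟨a, b, c, hab, hac, hbc, ha, hb, hc, pa, pb, pc, -⟩ := H.three_lines p
  set NB := (a.erase p) ∪ (b.erase p) ∪ (c.erase p) with hNB
  have hNB6 : NB.card = 6 := by
    rw [hNB, card_union_of_disjoint, card_union_of_disjoint,
      card_erase_of_mem pa, card_erase_of_mem pb, card_erase_of_mem pc, H.three a ha, H.three b hb,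
      H.three c hc]
    · rw [disjoint_left]
      intro y h1 h2
      rw [mem_erase] at h1 h2
      exact hab (H.lin a ha b hb p y h1.1.symm pa h1.2 pb h2.2)
    · rw [disjoint_left]
      intro y h1 h2
      rw [mem_union, mem_erase, mem_erase] at h1
      rw [mem_erase] at h2
      rcases h1 with h1 | h1
      · exact hac (H.lin a ha c hc p y h1.1.symm pa h1.2 pc h2.2)
      · exact hbc (H.lin b hb c hc p y h1.1.symm pb h1.2 pc h2.2)
  have hline : ∀ q ∈ NB, ∃ ℓ ∈ L, p ∈ ℓ ∧ q ∈ ℓ ∧ q ≠ p := by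
    intro q hq
    simp only [hNB, mem_union, mem_erase] at hq
    rcases hq with (⟨h1, h2⟩ | ⟨h1, h2⟩) | ⟨h1, h2⟩
    · exact ⟨a, ha, pa, h2, h1⟩
    · exact ⟨b, hb, pb, h2, h1⟩
    · exact ⟨c, hc, pc, h2, h1⟩
  have hex : ∃ q ∈ NB, ∃ q' ∈ NB, q ≠ q' ∧ ∃ m ∈ L, q ∈ m ∧ q' ∈ m ∧ p ∉ m := by
    by_contra hcon
    push Not at hcon
    have h1 : (NB.biUnion fun q => L.filter fun m => q ∈ m ∧ p ∉ m).card = 12 := by
      rw [card_biUnion, sum_congr rfl fun q hq => show _ = 2 from ?_, sum_const, hNB6]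
      · rfl
      · obtain ⟨ℓ, hℓ, hpℓ, hqℓ, hqp⟩ := hline q hq
        have h2 : (L.filter fun m => q ∈ m ∧ p ∉ m) = (L.filter (q ∈ ·)).erase ℓ := by
          ext m
          simp only [mem_filter, mem_erase]
          constructor
          · rintro ⟨h3, h4, h5⟩
            exact ⟨fun h => h5 (h ▸ hpℓ), h3, h4⟩
          · rintro ⟨h3, h4, h5⟩
            exact ⟨h4, h5, fun h => h3 (H.lin m h4 ℓ hℓ p q hqp.symm h h5 hpℓ hqℓ)⟩
        rw [h2, card_erase_of_mem (mem_filter.2 ⟨hℓ, hqℓ⟩), H.deg]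
      · intro q hq q' hq' hqq
        show Disjoint (L.filter fun m => q ∈ m ∧ p ∉ m) (L.filter fun m => q' ∈ m ∧ p ∉ m)
        rw [disjoint_left]
        intro m h2 h3
        rw [mem_filter] at h2 h3
        exact h2.2.2 (hcon q hq q' hq' hqq m h2.1 h2.2.1 h3.2.1)
    have h2 : Disjoint (L.filter (p ∈ ·)) (NB.biUnion fun q => L.filter fun m => q ∈ m ∧ p ∉ m) := by
      rw [disjoint_left]
      intro m h3 h4
      rw [mem_biUnion] at h4
      obtain ⟨q, -, h4⟩ := h4
      exact (mem_filter.1 h4).2.2 (mem_filter.1 h3).2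
    have h3 := card_union_of_disjoint h2
    rw [h1, H.deg] at h3
    have h4 : (L.filter (p ∈ ·)) ∪ (NB.biUnion fun q => L.filter fun m => q ∈ m ∧ p ∉ m) ⊆ L := by
      intro m hm
      rw [mem_union, mem_filter, mem_biUnion] at hm
      rcases hm with hm | ⟨q, -, hm⟩
      · exact hm.1
      · exact (mem_filter.1 hm).1
    have h5 := card_le_card h4
    have h6 := H.cardL
    omega
  obtain ⟨q, hq, q', hq', hqq, m, hm, hqm, hqm', hpm⟩ := hex
  obtain ⟨l, hl, pl, ql, hqp⟩ := hline q hq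
  obtain ⟨l', hl', pl', ql', hqp'⟩ := hline q' hq'
  obtain ⟨s, hs, hsp, hsq, -⟩ := H.third hl pl ql hqp.symm
  obtain ⟨s', hs', hsp', hsq', -⟩ := H.third hl' pl' ql' hqp'.symm
  obtain ⟨r, hr, hrq, hrq', -⟩ := H.third hm hqm hqm' hqq
  have hne : l ≠ l' := by
    rintro rfl
    exact hpm ((H.lin l hl m hm q q' hqq ql ql' hqm hqm') ▸ pl)
  have hml : m ≠ l := fun h => hpm (h ▸ pl)
  have hml' : m ≠ l' := fun h => hpm (h ▸ pl')
  refine ⟨span ℝ {u p, u q} ⊔ span ℝ {u q'}, finrank_three, ?_⟩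
  have h1 : ({p, q, s, q', s', r} : Finset P).card = 6 := by
    rw [card_insert_of_notMem, card_insert_of_notMem, card_insert_of_notMem,
      card_insert_of_notMem, card_pair]
    · rintro rfl
      exact hml' (H.lin m hm l' hl' q' s' hsq'.symm hqm' hr ql' hs')
    · simp only [mem_insert, mem_singleton, not_or]
      exact ⟨hsq'.symm, hrq'.symm⟩
    · simp only [mem_insert, mem_singleton, not_or]
      refine ⟨?_, ?_, ?_⟩
      · rintro rfl
        exact hne (H.lin l hl l' hl' p s hsp.symm pl hs pl' ql')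
      · rintro rfl
        exact hne (H.lin l hl l' hl' p s hsp.symm pl hs pl' hs')
      · rintro rfl
        exact hml (H.lin m hm l hl q s hsq.symm hqm hr ql hs)
    · simp only [mem_insert, mem_singleton, not_or]
      refine ⟨hsq.symm, hqq, ?_, hrq.symm⟩
      rintro rfl
      exact hne (H.lin l hl l' hl' p q hqp.symm pl ql pl' hs')
    · simp only [mem_insert, mem_singleton, not_or]
      exact ⟨hqp.symm, hsp.symm, hqp'.symm, hsp'.symm, fun h => hpm (h ▸ hr)⟩
  rw [← h1]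
  refine card_le_card fun x hx => ?_
  simp only [mem_insert, mem_singleton] at hx
  have k1 : u p ∈ span ℝ {u p, u q} ⊔ span ℝ {u q'} := H.mem_pl1
  have k2 : u q ∈ span ℝ {u p, u q} ⊔ span ℝ {u q'} := H.mem_pl2
  have k3 : u q' ∈ span ℝ {u p, u q} ⊔ span ℝ {u q'} := H.mem_pl3
  have k4 := H.flat hl pl ql hs hqp.symm k1 k2
  have k5 := H.flat hl' pl' ql' hs' hqp'.symm k1 k3
  have k6 := H.flat hm hqm hqm' hr hqq k2 k3
  rw [mem_pts]
  rcases hx with rfl | rfl | rfl | rfl | rfl | rfl <;> assumption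

theorem false : False := by
  classical
  obtain ⟨F, hF, h6⟩ := H.exists_plane
  have hN := H.cardP
  have h7 := H.plane_le hF
  by_cases hc : (pts u F).card = 7
  · have hin : ∀ ℓ ∈ L, ∀ y ∈ ℓ, u y ∈ F → ∀ x ∈ ℓ, u x ∈ F := by
      intro ℓ hℓ y hy hyF x hx
      by_contra hxF
      have h1 := H.add_point hxF (S := {ℓ}) (by
        intro m hm
        rw [mem_singleton] at hm
        subst hm
        exact ⟨hℓ, hx, y, hy, hyF⟩)
      rw [card_singleton] at h1
      have h2 := H.pts_le6 (finrank_sup_sing (x := u x) hF)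
      omega
    obtain ⟨y, hy⟩ : (pts u F).Nonempty := card_pos.1 (by omega)
    obtain ⟨T, -, -, -, -, -, hT, -, -, hyT, -⟩ := H.three_lines y
    have hTF : T ⊆ pts u F := fun x hx => mem_pts.2 (hin T hT y hyT (mem_pts.1 hy) x hx)
    refine H.quad (O := pts u F \ T) (Y := T) ?_ ?_ (H.three T hT).le ?_ ?_
    · rw [card_sdiff_of_subset hTF, hc, H.three T hT]
    · intro o ho ℓ hℓ hoℓ
      rw [mem_sdiff, mem_pts] at ho
      have h1 : ∃ z ∈ ℓ, z ≠ o := by
        by_contra hcon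
        push Not at hcon
        have := card_le_card (show ℓ ⊆ {o} from fun z hz => mem_singleton.2 (hcon z hz))
        rw [H.three ℓ hℓ, card_singleton] at this
        omega
      obtain ⟨z, hz, hzo⟩ := h1
      obtain ⟨r, hr, hro, hrz, -⟩ := H.third hℓ hoℓ hz hzo.symm
      by_cases hzT : z ∈ T
      · refine ⟨r, mem_sdiff.2 ⟨mem_pts.2 (hin ℓ hℓ o hoℓ ho.1 r hr), fun hrT => ?_⟩, hro, hr⟩
        exact ho.2 ((H.lin ℓ hℓ T hT z r hrz.symm hz hr hzT hrT) ▸ hoℓ)
      · exact ⟨z, mem_sdiff.2 ⟨mem_pts.2 (hin ℓ hℓ o hoℓ ho.1 z hz), hzT⟩, hzo, hz⟩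
    · intro o ho ℓ hℓ hoℓ f hf hfO
      rw [mem_sdiff, mem_pts] at ho
      by_contra hfT
      exact hfO (mem_sdiff.2 ⟨mem_pts.2 (hin ℓ hℓ o hoℓ ho.1 f hf), hfT⟩)
    · intro p hp q hq s hs hpq
      exact H.col T hT p hp q hq s hs hpq
  · have hc6 : (pts u F).card = 6 := by omega
    have two := fun x (hx : u x ∉ F) e he e' he' => H.two_of_card (x := x) (e := e) (e' := e') hF
      (β := 6) (fun G hG => H.pts_le6 hG) (by omega) hx he he'
    have h1 := H.ext (A := pts u F) two fun f hf => ?_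
    · omega
    · refine ⟨mem_pts.1 hf, ?_⟩
      by_contra hcon
      push Not at hcon
      obtain ⟨S, hS, h2⟩ := H.star f
      have h3 : S ⊆ pts u F := by
        intro y hy
        obtain ⟨ℓ, hℓ, hfℓ, hyℓ⟩ := h2 y hy
        obtain ⟨z, hz, hzF, hzf⟩ := hcon ℓ hℓ hfℓ
        exact mem_pts.2 (H.flat hℓ hfℓ hz hyℓ hzf.symm (mem_pts.1 hf) hzF)
      have h4 := card_le_card h3
      omega

end Sys

end Pool.Agent.R158.N3
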